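import Mathlib
import Pool.Agent.Helper627.PM

set_option autoImplicit false
open Set Topology

namespace Pool.Agent.H404R2.Sq

/-- Two-dimensional Poincare-Miranda theorem with weak inequalities. -/
theorem weak_pm (a b c d : ℝ) (hab : a < b) (hcd : c < d) (φ ψ : ℝ × ℝ → ℝ)
    (hφ : Continuous φ) (hψ : Continuous ψ)
    (hL : ∀ y ∈ Icc c d, φ (a, y) ≤ 0) (hR : ∀ y ∈ Icc c d, 0 ≤ φ (b, y))
    (hB : ∀ x ∈ Icc a b, ψ (x, c) ≤ 0) (hT : ∀ x ∈ Icc a b, 0 ≤ ψ (x, d)) :
    ∃ x ∈ Icc a b, ∃ y ∈ Icc c d, φ (x, y) = 0 ∧ ψ (x, y) = 0 := by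
  have hK : IsCompact (Icc a b ×ˢ Icc c d) := isCompact_Icc.prod isCompact_Icc
  obtain ⟨p, hp, hmin⟩ := hK.exists_isMinOn
    ⟨(a, c), ⟨left_mem_Icc.2 hab.le, left_mem_Icc.2 hcd.le⟩⟩
    (f := fun p => |φ p| + |ψ p|) (by fun_prop)
  have hnn1 := abs_nonneg (φ p)
  have hnn2 := abs_nonneg (ψ p)
  by_cases h0 : |φ p| + |ψ p| = 0
  · have h1 : |φ p| = 0 := by linarith
    have h2 : |ψ p| = 0 := by linarith
    exact ⟨p.1, hp.1, p.2, hp.2, abs_eq_zero.1 h1, abs_eq_zero.1 h2⟩
  exfalso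
  have hm : 0 < |φ p| + |ψ p| := lt_of_le_of_ne (by linarith) (Ne.symm h0)
  obtain ⟨m, hmdef⟩ : ∃ m, m = |φ p| + |ψ p| := ⟨_, rfl⟩
  rw [← hmdef] at hm
  have hD : 0 < b - a + (d - c) := by linarith
  obtain ⟨ε, hε⟩ : ∃ ε, ε = m / (2 * (b - a + (d - c))) := ⟨_, rfl⟩
  have hε0 : 0 < ε := by rw [hε]; positivity
  have hεm : ε * (b - a + (d - c)) < m := by
    rw [hε, div_mul_eq_mul_div, div_lt_iff₀ (by positivity)]
    nlinarith
  obtain ⟨x, hx, y, hy, e1, e2⟩ := Pool.Agent.Helper627.PM.poincare_miranda a b c d hab.le hcd.le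
    (fun q => ψ q + ε * (2 * q.2 - c - d)) (fun q => φ q + ε * (2 * q.1 - a - b))
    (by fun_prop) (by fun_prop)
    (by
      intro y hy
      have := hL y hy
      have : ε * (2 * a - a - b) < 0 := mul_neg_of_pos_of_neg hε0 (by linarith)
      simp only; linarith)
    (by
      intro y hy
      have := hR y hy
      have : 0 < ε * (2 * b - a - b) := mul_pos hε0 (by linarith)
      simp only; linarith)
    (by
      intro y hy
      have := hB y hy
      have : ε * (2 * c - c - d) < 0 := mul_neg_of_pos_of_neg hε0 (by linarith)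
      simp only; linarith)
    (by
      intro y hy
      have := hT y hy
      have : 0 < ε * (2 * d - c - d) := mul_pos hε0 (by linarith)
      simp only; linarith)
  have hle : |φ p| + |ψ p| ≤ |φ (x, y)| + |ψ (x, y)| := isMinOn_iff.1 hmin (x, y) ⟨hx, hy⟩
  rw [← hmdef] at hle
  simp only at e1 e2
  have f1 : ψ (x, y) = - (ε * (2 * y - c - d)) := by linarith
  have f2 : φ (x, y) = - (ε * (2 * x - a - b)) := by linarith
  have g1 : |ψ (x, y)| ≤ ε * (d - c) := by
    rw [f1, abs_neg, abs_mul, abs_of_pos hε0]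
    apply mul_le_mul_of_nonneg_left _ hε0.le
    rw [abs_le]; constructor <;> linarith [hy.1, hy.2]
  have g2 : |φ (x, y)| ≤ ε * (b - a) := by
    rw [f2, abs_neg, abs_mul, abs_of_pos hε0]
    apply mul_le_mul_of_nonneg_left _ hε0.le
    rw [abs_le]; constructor <;> linarith [hx.1, hx.2]
  nlinarith

/-- Crossing lemma: two paths, one running between the two levels of `f`, the other between the
two levels of `g`. -/
theorem cross (Λ δ : ℝ → ℂ) (hΛ : Continuous Λ) (hδ : Continuous δ) (f g : ℂ → ℝ)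
    (hf : Continuous f) (hg : Continuous g) (hfg : ∀ z w, f z = f w → g z = g w → z = w)
    {a b c d : ℝ} (hab : a < b) (hcd : c < d)
    (h1 : ∀ t ∈ Icc c d, f (Λ a) ≤ f (δ t)) (h2 : ∀ t ∈ Icc c d, f (δ t) ≤ f (Λ b))
    (h3 : ∀ s ∈ Icc a b, g (δ c) ≤ g (Λ s)) (h4 : ∀ s ∈ Icc a b, g (Λ s) ≤ g (δ d)) :
    ∃ s ∈ Icc a b, ∃ t ∈ Icc c d, Λ s = δ t := by
  obtain ⟨s, hs, t, ht, e1, e2⟩ := weak_pm a b c d hab hcd
    (fun q => f (Λ q.1) - f (δ q.2)) (fun q => g (δ q.2) - g (Λ q.1))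
    (by fun_prop) (by fun_prop)
    (fun y hy => by simpa using h1 y hy) (fun y hy => by simpa using h2 y hy)
    (fun x hx => by simpa using h3 x hx) (fun x hx => by simpa using h4 x hx)
  simp only at e1 e2
  exact ⟨s, hs, t, ht, hfg _ _ (by linarith) (by linarith)⟩

/-! ### components of the complement of a closed set -/

/-- The component of the complement of `S` containing `z`. -/
def Comp (S : Set ℂ) (z : ℂ) : Set ℂ := connectedComponentIn Sᶜ z

lemma comp_open {S : Set ℂ} (hS : IsClosed S) (z : ℂ) : IsOpen (Comp S z) :=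
  hS.isOpen_compl.connectedComponentIn

lemma comp_sub (S : Set ℂ) (z : ℂ) : Comp S z ⊆ Sᶜ := connectedComponentIn_subset _ _

lemma comp_closure {S : Set ℂ} (hS : IsClosed S) (z : ℂ) :
    closure (Comp S z) ⊆ Comp S z ∪ S := by
  intro x hx
  by_cases hxS : x ∈ S
  · exact Or.inr hxS
  left
  have ho := comp_open hS x
  have hmem : x ∈ Comp S x := mem_connectedComponentIn hxS
  obtain ⟨y, hy1, hy2⟩ := mem_closure_iff.1 hx _ ho hmem
  have e1 : Comp S x = Comp S y := connectedComponentIn_eq hy1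
  have e2 : Comp S z = Comp S y := connectedComponentIn_eq hy2
  rw [e2, ← e1]; exact hmem

lemma comp_frontier {S : Set ℂ} (hS : IsClosed S) (z : ℂ) : frontier (Comp S z) ⊆ S := by
  intro x hx
  rcases comp_closure hS z hx.1 with h | h
  · exact absurd (by rwa [(comp_open hS z).interior_eq]) hx.2
  · exact h

/-- a connected set in the complement of `S` which contains a point of the component is inside
the component -/
lemma sub_comp {S K : Set ℂ} {z : ℂ} (hK : IsPreconnected K) (hKS : Disjoint K S)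
    (hz : z ∈ K) : K ⊆ Comp S z :=
  hK.subset_connectedComponentIn hz (fun _ hx => Set.disjoint_left.1 hKS hx)

lemma sub_comp' {S K : Set ℂ} {z x : ℂ} (hK : IsPreconnected K) (hKS : Disjoint K S)
    (hx : x ∈ K) (hxz : x ∈ Comp S z) : K ⊆ Comp S z := by
  have e : Comp S z = Comp S x := connectedComponentIn_eq hxz
  rw [e]; exact sub_comp hK hKS hx

/-- If `x` lies in the closure of a connected set `K` missing `S` and `K` contains a point outside
the component, then `x` is not in the component. -/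
lemma notMem_comp {S K : Set ℂ} (hS : IsClosed S) {z x y : ℂ} (hK : IsPreconnected K)
    (hKS : Disjoint K S) (hx : x ∈ closure K) (hy : y ∈ K) (hyz : y ∉ Comp S z) :
    x ∉ Comp S z := by
  intro hxz
  obtain ⟨v, hv1, hv2⟩ := mem_closure_iff.1 hx _ (comp_open hS z) hxz
  exact hyz (sub_comp' hK hKS hv2 hv1 hy)

open Classical in
/-- signed distance to `S` -/
noncomputable def sd (S : Set ℂ) (z0 z : ℂ) : ℝ :=
  if z ∈ Comp S z0 then Metric.infDist z S else - Metric.infDist z S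

lemma sd_cont {S : Set ℂ} (hS : IsClosed S) (z0 : ℂ) : Continuous (sd S z0) := by
  classical
  unfold sd
  apply Continuous.if
  · intro a ha
    have : a ∈ S := comp_frontier hS z0 ha
    rw [Metric.infDist_zero_of_mem this, neg_zero]
  · exact Metric.continuous_infDist_pt S
  · exact (Metric.continuous_infDist_pt S).neg

lemma sd_nonpos {S : Set ℂ} {z0 z : ℂ} (h : z ∉ Comp S z0) : sd S z0 z ≤ 0 := by
  classical
  unfold sd
  rw [if_neg h]
  have := Metric.infDist_nonneg (x := z) (s := S)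
  linarith

lemma sd_nonneg {S : Set ℂ} (hS : IsClosed S) {z0 z : ℂ} (h : z ∈ closure (Comp S z0)) :
    0 ≤ sd S z0 z := by
  classical
  unfold sd
  split_ifs with hz
  · exact Metric.infDist_nonneg
  · rcases comp_closure hS z0 h with h | h
    · exact absurd h hz
    · rw [Metric.infDist_zero_of_mem h, neg_zero]

lemma sd_zero {S : Set ℂ} (hS : IsClosed S) (hne : S.Nonempty) {z0 z : ℂ}
    (h : sd S z0 z = 0) : z ∈ S := by
  classical
  rw [hS.mem_iff_infDist_zero hne]
  unfold sd at h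
  split_ifs at h with hz
  · exact h
  · linarith

/-- The engine: squares with two vertices on `A1`, `A2` and the other two in `S`. -/
theorem engine {S : Set ℂ} (hS : IsClosed S) (hSne : S.Nonempty) (z0 : ℂ) {A1 A2 : ℝ → ℂ}
    (h1c : Continuous A1) (h2c : Continuous A2)
    (e1 : ∀ t ∈ Icc (0:ℝ) 1, A1 0 - Complex.I * (A2 t - A1 0) ∉ Comp S z0)
    (e4 : ∀ t ∈ Icc (0:ℝ) 1, A1 1 - Complex.I * (A2 t - A1 1) ∈ closure (Comp S z0))
    (e3 : ∀ t ∈ Icc (0:ℝ) 1, A2 0 - Complex.I * (A2 0 - A1 t) ∈ closure (Comp S z0))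
    (e2 : ∀ t ∈ Icc (0:ℝ) 1, A2 1 - Complex.I * (A2 1 - A1 t) ∉ Comp S z0) :
    ∃ t1 ∈ Icc (0:ℝ) 1, ∃ t2 ∈ Icc (0:ℝ) 1,
      A1 t1 - Complex.I * (A2 t2 - A1 t1) ∈ S ∧ A2 t2 - Complex.I * (A2 t2 - A1 t1) ∈ S := by
  have hc := sd_cont hS z0
  obtain ⟨t1, ht1, t2, ht2, f1, f2⟩ := weak_pm 0 1 0 1 zero_lt_one zero_lt_one
    (fun q => sd S z0 (A1 q.1 - Complex.I * (A2 q.2 - A1 q.1)))
    (fun q => - sd S z0 (A2 q.2 - Complex.I * (A2 q.2 - A1 q.1)))
    (hc.comp (by fun_prop)) (hc.comp (by fun_prop)).neg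
    (fun y hy => sd_nonpos (e1 y hy)) (fun y hy => sd_nonneg hS (e4 y hy))
    (fun x hx => by simpa using sd_nonneg hS (e3 x hx))
    (fun x hx => by simpa using sd_nonpos (e2 x hx))
  simp only at f1 f2
  exact ⟨t1, ht1, t2, ht2, sd_zero hS hSne f1, sd_zero hS hSne (by linarith)⟩

end Pool.Agent.H404R2.Sq
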