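import Mathlib
import Pool.Agent.H404R2.Sq.Engine

set_option autoImplicit false
open Set Topology

namespace Pool.Agent.H404R2.Sq

/-- A point of a component is joined to the base point inside the complement of `S`. -/
lemma exists_path {S : Set ℂ} (hS : IsClosed S) {z0 z1 : ℂ} (h : z1 ∈ Comp S z0) :
    ∃ δ : ℝ → ℂ, Continuous δ ∧ (∀ t ≤ 0, δ t = z0) ∧ (∀ t, 1 ≤ t → δ t = z1) ∧
      ∀ t, δ t ∉ S := by
  have ho := comp_open hS z0
  have h0 : z0 ∈ Sᶜ := by
    by_contra hcon
    have : Comp S z0 = ∅ := connectedComponentIn_eq_empty hcon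
    rw [this] at h
    exact h
  have hc : IsConnected (Comp S z0) := isConnected_connectedComponentIn_iff.2 h0
  have hp : IsPathConnected (Comp S z0) := ho.isConnected_iff_isPathConnected.1 hc
  have hj := hp.joinedIn z0 (mem_connectedComponentIn h0) z1 h
  refine ⟨hj.somePath.extend, hj.somePath.continuous_extend, ?_, ?_, ?_⟩
  · intro t ht
    exact hj.somePath.extend_of_le_zero ht
  · intro t ht
    exact hj.somePath.extend_of_one_le ht
  · intro t
    have hr : hj.somePath.extend t ∈ range hj.somePath := by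
      rw [← Path.extend_range]; exact ⟨t, rfl⟩
    obtain ⟨u, hu⟩ := hr
    rw [← hu]
    exact comp_sub S z0 (hj.somePath_mem u)

lemma exists_large {c : ℝ} (hc : 0 < c) (A B : ℝ) : ∃ K0 : ℝ, 0 ≤ K0 ∧ ∀ K, K0 ≤ K → B ≤ A + K * c := by
  refine ⟨max 0 ((B - A) / c), le_max_left _ _, fun K hK => ?_⟩
  have h1 : (B - A) / c ≤ K := le_trans (le_max_right _ _) hK
  rw [div_le_iff₀ hc] at h1
  linarith

/-- General separation lemma: a path in `S` prolonged by two rays of `S` separates two points from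
which rays go to infinity on the two sides. -/
theorem sep {S : Set ℂ} (hS : IsClosed S) {L : ℝ → ℂ} (hL : Continuous L)
    (hLS : ∀ s ∈ Icc (0:ℝ) 1, L s ∈ S) {eP eQ u v z0 z1 : ℂ}
    (hP : ∀ τ : ℝ, 0 ≤ τ → L 0 + τ * eP ∈ S) (hQ : ∀ τ : ℝ, 0 ≤ τ → L 1 + τ * eQ ∈ S)
    (hu : ∀ τ : ℝ, 0 ≤ τ → z0 + τ * u ∉ S) (hv : ∀ τ : ℝ, 0 ≤ τ → z1 + τ * v ∉ S)
    (f g : ℂ →L[ℝ] ℝ) (hfg : ∀ z, f z = 0 → g z = 0 → z = 0)
    (fu : f u = 0) (fv : f v = 0) (fP : f eP < 0) (fQ : 0 < f eQ) (gu : g u < 0) (gv : 0 < g v) :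
    z1 ∉ Comp S z0 := by
  intro hcon
  obtain ⟨δ0, hδ0, hδa, hδb, hδS⟩ := exists_path hS hcon
  -- the two extended paths
  let δ : ℝ → ℂ := fun t => δ0 t + (max 0 (-t) : ℝ) * u + (max 0 (t - 1) : ℝ) * v
  let cl : ℝ → ℝ := fun s => max 0 (min 1 s)
  have hcl : ∀ s, cl s ∈ Icc (0:ℝ) 1 := fun s =>
    ⟨le_max_left _ _, max_le zero_le_one (min_le_left _ _)⟩
  let Λ : ℝ → ℂ := fun s => L (cl s) + (max 0 (-s) : ℝ) * eP + (max 0 (s - 1) : ℝ) * eQ
  have hδc : Continuous δ := by
    have h1 : Continuous fun t : ℝ => ((max 0 (-t) : ℝ) : ℂ) :=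
      Complex.continuous_ofReal.comp (by fun_prop)
    have h2 : Continuous fun t : ℝ => ((max 0 (t - 1) : ℝ) : ℂ) :=
      Complex.continuous_ofReal.comp (by fun_prop)
    exact (hδ0.add (h1.mul continuous_const)).add (h2.mul continuous_const)
  have hΛc : Continuous Λ := by
    have h0 : Continuous cl := by fun_prop
    have h1 : Continuous fun t : ℝ => ((max 0 (-t) : ℝ) : ℂ) :=
      Complex.continuous_ofReal.comp (by fun_prop)
    have h2 : Continuous fun t : ℝ => ((max 0 (t - 1) : ℝ) : ℂ) :=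
      Complex.continuous_ofReal.comp (by fun_prop)
    exact ((hL.comp h0).add (h1.mul continuous_const)).add (h2.mul continuous_const)
  have hsm : ∀ (F : ℂ →L[ℝ] ℝ) (r : ℝ) (z : ℂ), F ((r : ℂ) * z) = r * F z := by
    intro F r z
    have : (r : ℂ) * z = r • z := by simp
    rw [this, map_smul, smul_eq_mul]
  have hfδ : ∀ t, f (δ t) = f (δ0 t) := by
    intro t
    simp only [δ, map_add, hsm, fu, fv]; ring
  -- `f` is bounded along `δ0`
  obtain ⟨B, hB⟩ : ∃ B : ℝ, ∀ t, |f (δ0 t)| ≤ B := by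
    obtain ⟨B, hB⟩ := (isCompact_Icc (a := (0:ℝ)) (b := 1)).exists_bound_of_continuousOn
      (f := fun t => f (δ0 t)) (by fun_prop)
    refine ⟨B, fun t => ?_⟩
    rcases le_total t 0 with ht | ht
    · rw [hδa t ht, ← hδa 0 le_rfl]
      exact hB 0 ⟨le_rfl, zero_le_one⟩
    rcases le_total 1 t with ht' | ht'
    · rw [hδb t ht', ← hδb 1 le_rfl]
      exact hB 1 ⟨zero_le_one, le_rfl⟩
    · exact hB t ⟨ht, ht'⟩
  have hΛl : ∀ s : ℝ, 0 ≤ s → Λ (-s) = L 0 + s * eP := by
    intro s hs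
    have h1 : cl (-s) = 0 := by
      simp only [cl]
      rw [min_eq_right (by linarith), max_eq_left (by linarith)]
    simp only [Λ, h1, neg_neg, max_eq_right hs, max_eq_left (show -s - 1 ≤ 0 by linarith)]
    simp
  have hΛr : ∀ s : ℝ, 0 ≤ s → Λ (1 + s) = L 1 + s * eQ := by
    intro s hs
    have h1 : cl (1 + s) = 1 := by
      simp only [cl]
      rw [min_eq_left (by linarith), max_eq_right (by linarith)]
    simp only [Λ, h1, max_eq_left (show -(1 + s) ≤ 0 by linarith),
      show 1 + s - 1 = s by ring, max_eq_right hs]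
    simp
  have hδl : ∀ s : ℝ, 0 ≤ s → δ (-s) = z0 + s * u := by
    intro s hs
    simp only [δ, hδa (-s) (by linarith), neg_neg, max_eq_right hs,
      max_eq_left (show -s - 1 ≤ 0 by linarith)]
    simp
  have hδr : ∀ s : ℝ, 0 ≤ s → δ (1 + s) = z1 + s * v := by
    intro s hs
    simp only [δ, hδb (1 + s) (by linarith), max_eq_left (show -(1 + s) ≤ 0 by linarith),
      show 1 + s - 1 = s by ring, max_eq_right hs]
    simp
  obtain ⟨Ka, hKa0, hKa⟩ := exists_large (c := - f eP) (by linarith) (- f (L 0)) B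
  obtain ⟨Kb, hKb0, hKb⟩ := exists_large fQ (f (L 1)) B
  obtain ⟨K1, hK1⟩ : ∃ K1, K1 = max Ka Kb := ⟨_, rfl⟩
  have hK10 : 0 ≤ K1 := by rw [hK1]; exact le_trans hKa0 (le_max_left _ _)
  have hKa' := hKa K1 (by rw [hK1]; exact le_max_left _ _)
  have hKb' := hKb K1 (by rw [hK1]; exact le_max_right _ _)
  obtain ⟨B2, hB2⟩ : ∃ B2 : ℝ, ∀ s ∈ Icc (-K1) (1 + K1), ‖g (Λ s)‖ ≤ B2 :=
    isCompact_Icc.exists_bound_of_continuousOn (by fun_prop)
  obtain ⟨Kc, hKc0, hKc⟩ := exists_large (c := - g u) (by linarith) (- g z0) B2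
  obtain ⟨Kd, hKd0, hKd⟩ := exists_large gv (g z1) B2
  obtain ⟨K2, hK2⟩ : ∃ K2, K2 = max Kc Kd := ⟨_, rfl⟩
  have hK20 : 0 ≤ K2 := by rw [hK2]; exact le_trans hKc0 (le_max_left _ _)
  have hKc' := hKc K2 (by rw [hK2]; exact le_max_left _ _)
  have hKd' := hKd K2 (by rw [hK2]; exact le_max_right _ _)
  obtain ⟨s, hs, t, ht, e⟩ := cross Λ δ hΛc hδc f g f.continuous g.continuous
    (fun z w h1 h2 => by
      have := hfg (z - w) (by rw [map_sub, h1, sub_self]) (by rw [map_sub, h2, sub_self])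
      exact sub_eq_zero.1 this)
    (a := -K1) (b := 1 + K1) (c := -K2) (d := 1 + K2) (by linarith) (by linarith)
    (by
      intro t _
      have h1 : f (Λ (-K1)) = f (L 0) + K1 * f eP := by rw [hΛl K1 hK10, map_add, hsm]
      have h2 := (abs_le.1 (hB t)).1
      rw [hfδ, h1]
      linarith)
    (by
      intro t _
      have h1 : f (Λ (1 + K1)) = f (L 1) + K1 * f eQ := by rw [hΛr K1 hK10, map_add, hsm]
      have h2 := (abs_le.1 (hB t)).2
      rw [hfδ, h1]
      linarith)
    (by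
      intro s hs
      have h1 : g (δ (-K2)) = g z0 + K2 * g u := by rw [hδl K2 hK20, map_add, hsm]
      have h2 := (abs_le.1 (hB2 s hs)).1
      linarith)
    (by
      intro s hs
      have h1 : g (δ (1 + K2)) = g z1 + K2 * g v := by rw [hδr K2 hK20, map_add, hsm]
      have h2 := (abs_le.1 (hB2 s hs)).2
      linarith)
  -- contradiction
  have hΛS : Λ s ∈ S := by
    rcases le_total s 0 with h | h
    · have := hP (-s) (by linarith)
      rw [← hΛl (-s) (by linarith), neg_neg] at this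
      exact this
    rcases le_total 1 s with h' | h'
    · have := hQ (s - 1) (by linarith)
      rw [← hΛr (s - 1) (by linarith), show 1 + (s - 1) = s by ring] at this
      exact this
    · have h1 : Λ s = L s := by
        have h1 : cl s = s := by
          simp only [cl]
          rw [min_eq_right h', max_eq_right h]
        simp only [Λ, h1, max_eq_left (show -s ≤ 0 by linarith),
          max_eq_left (show s - 1 ≤ 0 by linarith)]
        simp
      rw [h1]; exact hLS s ⟨h, h'⟩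
  have hδS' : δ t ∉ S := by
    rcases le_total t 0 with h | h
    · have := hu (-t) (by linarith)
      rw [← hδl (-t) (by linarith), neg_neg] at this
      exact this
    rcases le_total 1 t with h' | h'
    · have := hv (t - 1) (by linarith)
      rw [← hδr (t - 1) (by linarith), show 1 + (t - 1) = t by ring] at this
      exact this
    · have h1 : δ t = δ0 t := by
        simp only [δ, max_eq_left (show -t ≤ 0 by linarith),
          max_eq_left (show t - 1 ≤ 0 by linarith)]
        simp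
      rw [h1]; exact hδS t
  exact hδS' (e ▸ hΛS)

end Pool.Agent.H404R2.Sq
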