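import Mathlib
import Pool.Agent.H404R2.Sq.Sep

set_option autoImplicit false
open Set Topology

namespace Pool.Agent.H404R2.Sq

/-- The real inner product of two complex numbers. -/
def ip (z w : ℂ) : ℝ := z.re * w.re + z.im * w.im

lemma mem_closure_of_seg {K : Set ℂ} {a c : ℂ} (h : ∀ τ ∈ Ioc (0:ℝ) 1, a + τ * (c - a) ∈ K) :
    a ∈ closure K := by
  have ht : Filter.Tendsto (fun τ : ℝ => a + (τ : ℂ) * (c - a)) (𝓝[>] 0) (𝓝 a) := by
    have : Continuous fun τ : ℝ => a + (τ : ℂ) * (c - a) := by fun_prop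
    have h0 := this.tendsto 0
    simp only [Complex.ofReal_zero, zero_mul, add_zero] at h0
    exact h0.mono_left nhdsWithin_le_nhds
  apply mem_closure_of_tendsto ht
  filter_upwards [Ioc_mem_nhdsGT (zero_lt_one : (0:ℝ) < 1)] with τ hτ
  exact h τ hτ

lemma notMem_of_seg {S : Set ℂ} (hS : IsClosed S) {z0 a c : ℂ}
    (h : ∀ τ ∈ Ioc (0:ℝ) 1, a + τ * (c - a) ∉ S) (hc : c ∉ Comp S z0) : a ∉ Comp S z0 := by
  have hK : IsPreconnected ((fun τ : ℝ => a + (τ : ℂ) * (c - a)) '' Ioc (0:ℝ) 1) :=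
    isPreconnected_Ioc.image _ (by fun_prop)
  refine notMem_comp hS hK ?_ (mem_closure_of_seg (c := c) fun τ hτ => ⟨τ, hτ, rfl⟩)
    (y := c) ⟨1, ⟨zero_lt_one, le_rfl⟩, by simp⟩ hc
  rw [Set.disjoint_left]
  rintro _ ⟨τ, hτ, rfl⟩
  exact h τ hτ

lemma closure_of_seg {S : Set ℂ} {z0 a c : ℂ}
    (h : ∀ τ ∈ Ioc (0:ℝ) 1, a + τ * (c - a) ∉ S) (hc : c ∈ Comp S z0) :
    a ∈ closure (Comp S z0) := by
  have hK : IsPreconnected ((fun τ : ℝ => a + (τ : ℂ) * (c - a)) '' Ioc (0:ℝ) 1) :=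
    isPreconnected_Ioc.image _ (by fun_prop)
  have hsub : ((fun τ : ℝ => a + (τ : ℂ) * (c - a)) '' Ioc (0:ℝ) 1) ⊆ Comp S z0 := by
    apply sub_comp' (x := c) hK ?_ ⟨1, ⟨zero_lt_one, le_rfl⟩, by simp⟩ hc
    rw [Set.disjoint_left]
    rintro _ ⟨τ, hτ, rfl⟩
    exact h τ hτ
  exact closure_mono hsub (mem_closure_of_seg fun τ hτ => ⟨τ, hτ, rfl⟩)

lemma mem_of_seg {S : Set ℂ} {z0 c : ℂ}
    (h : ∀ τ ∈ Icc (0:ℝ) 1, z0 + τ * (c - z0) ∉ S) : c ∈ Comp S z0 := by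
  have hK : IsPreconnected ((fun τ : ℝ => z0 + (τ : ℂ) * (c - z0)) '' Icc (0:ℝ) 1) :=
    isPreconnected_Icc.image _ (by fun_prop)
  have hsub : ((fun τ : ℝ => z0 + (τ : ℂ) * (c - z0)) '' Icc (0:ℝ) 1) ⊆ Comp S z0 := by
    apply sub_comp hK ?_ ⟨0, ⟨le_rfl, zero_le_one⟩, by simp⟩
    rw [Set.disjoint_left]
    rintro _ ⟨τ, hτ, rfl⟩
    exact h τ hτ
  exact hsub ⟨1, ⟨zero_le_one, le_rfl⟩, by simp⟩

lemma ex1 {ax sx sy : ℝ} (h1 : ax < 0) (h2 : 0 ≤ ax - sy) (h3 : 0 ≤ ax + sx)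
    (h4 : 0 ≤ (ax + sx) * (ax - sy) + sy * sx) : False := by
  have h5 : 0 < ax - sy + sx := by linarith
  have h6 := mul_neg_of_neg_of_pos h1 h5
  nlinarith

/-- `L` prolonged by two horizontal rays. -/
def SD (L : ℝ → ℂ) : Set ℂ :=
  L '' Icc 0 1 ∪ ({z | z.im = 0 ∧ z.re ≤ 0} ∪ {z | z.im = 0 ∧ 1 ≤ z.re})

lemma SD_closed {L : ℝ → ℂ} (hL : Continuous L) : IsClosed (SD L) := by
  apply IsClosed.union
  · exact (isCompact_Icc.image hL).isClosed
  · apply IsClosed.union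
    · exact (isClosed_eq Complex.continuous_im continuous_const).inter
        (isClosed_le Complex.continuous_re continuous_const)
    · exact (isClosed_eq Complex.continuous_im continuous_const).inter
        (isClosed_le continuous_const Complex.continuous_re)

lemma SD_mem {L : ℝ → ℂ} {z : ℂ} (h : z ∈ SD L) :
    (∃ s ∈ Icc (0:ℝ) 1, L s = z) ∨ (z.im = 0 ∧ z.re ≤ 0) ∨ (z.im = 0 ∧ 1 ≤ z.re) := h

lemma SD_mem' {L : ℝ → ℂ} (hL0 : L 0 = 0) (hL1 : L 1 = 1) {z : ℂ} (h : z ∈ SD L) :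
    (∃ s ∈ Icc (0:ℝ) 1, L s = z) ∨ (z.im = 0 ∧ z.re < 0) ∨ (z.im = 0 ∧ 1 < z.re) := by
  rcases SD_mem h with h | ⟨h, h'⟩ | ⟨h, h'⟩
  · exact Or.inl h
  · rcases h'.lt_or_eq with h2 | h2
    · exact Or.inr (Or.inl ⟨h, h2⟩)
    · left
      exact ⟨0, ⟨le_rfl, zero_le_one⟩, by rw [hL0]; exact Complex.ext h2.symm h.symm⟩
  · rcases h'.lt_or_eq with h2 | h2
    · exact Or.inr (Or.inr ⟨h, h2⟩)
    · left
      exact ⟨1, ⟨zero_le_one, le_rfl⟩, by rw [hL1]; exact Complex.ext h2 h.symm⟩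

lemma SD_sep {L : ℝ → ℂ} (hL : Continuous L) (hL0 : L 0 = 0) (hL1 : L 1 = 1)
    (hre : ∀ s ∈ Icc (0:ℝ) 1, 0 ≤ (L s).re ∧ (L s).re ≤ 1) {z0 c : ℂ}
    (hz0 : ∀ τ : ℝ, 0 ≤ τ → z0 + τ * Complex.I ∉ SD L)
    (hc : c.im < 0) (hc' : c.re < 0 ∨ 1 < c.re) : c ∉ Comp (SD L) z0 := by
  apply sep (SD_closed hL) hL (fun s hs => Or.inl ⟨s, hs, rfl⟩) (eP := -1) (eQ := 1)
    (u := Complex.I) (v := -Complex.I) ?_ ?_ hz0 ?_ Complex.reCLM (-Complex.imCLM)
  · intro z h1 h2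
    apply Complex.ext
    · simpa using h1
    · simpa using h2
  · simp
  · simp
  · simp
  · simp
  · simp
  · simp
  · intro τ hτ
    rw [hL0]
    right; left
    simp [hτ]
  · intro τ hτ
    rw [hL1]
    right; right
    simp [hτ]
  · intro τ hτ h
    have h1 : (c + τ * -Complex.I).re = c.re := by simp
    have h2 : (c + τ * -Complex.I).im = c.im - τ := by simp [sub_eq_add_neg]
    rcases SD_mem h with ⟨s, hs, h⟩ | ⟨h, -⟩ | ⟨h, -⟩
    · have := hre s hs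
      rw [h, h1] at this
      rcases hc' with h | h <;> linarith
    · rw [h2] at h; linarith
    · rw [h2] at h; linarith

/-- Core statement with horizontal rays. -/
theorem dcore {L A1 A2 : ℝ → ℂ} (hL : Continuous L) (hA1 : Continuous A1) (hA2 : Continuous A2)
    (hL0 : L 0 = 0) (hL1 : L 1 = 1) (hA10 : A1 0 = 0) (hA21 : A2 1 = 1)
    (c01 : ∀ s ∈ Icc (0:ℝ) 1, ∀ t ∈ Icc (0:ℝ) 1, 0 ≤ ip (L s) (A1 t))
    (c02 : ∀ s ∈ Icc (0:ℝ) 1, ∀ t ∈ Icc (0:ℝ) 1, 0 ≤ ip (L s) (A2 t))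
    (c11 : ∀ s ∈ Icc (0:ℝ) 1, ∀ t ∈ Icc (0:ℝ) 1, 0 ≤ ip (L s - 1) (A1 t - 1))
    (c12 : ∀ s ∈ Icc (0:ℝ) 1, ∀ t ∈ Icc (0:ℝ) 1, 0 ≤ ip (L s - 1) (A2 t - 1))
    {z0 : ℂ} (hz0 : ∀ τ : ℝ, 0 ≤ τ → z0 + τ * Complex.I ∉ SD L)
    (e4 : ∀ t ∈ Icc (0:ℝ) 1, A1 1 - Complex.I * (A2 t - A1 1) ∈ closure (Comp (SD L) z0))
    (e3 : ∀ t ∈ Icc (0:ℝ) 1, A2 0 - Complex.I * (A2 0 - A1 t) ∈ closure (Comp (SD L) z0)) :
    ∃ t1 ∈ Icc (0:ℝ) 1, ∃ t2 ∈ Icc (0:ℝ) 1, ∃ s1 ∈ Icc (0:ℝ) 1, ∃ s2 ∈ Icc (0:ℝ) 1,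
      A1 t1 - Complex.I * (A2 t2 - A1 t1) = L s1 ∧ A2 t2 - Complex.I * (A2 t2 - A1 t1) = L s2 := by
  have i0 : (0:ℝ) ∈ Icc (0:ℝ) 1 := ⟨le_rfl, zero_le_one⟩
  have i1 : (1:ℝ) ∈ Icc (0:ℝ) 1 := ⟨zero_le_one, le_rfl⟩
  have hre : ∀ s ∈ Icc (0:ℝ) 1, 0 ≤ (L s).re ∧ (L s).re ≤ 1 := by
    intro s hs
    have h1 := c02 s hs 1 i1
    have h2 := c11 s hs 0 i0
    rw [hA21] at h1
    rw [hA10] at h2
    simp [ip] at h1 h2
    exact ⟨h1, h2⟩
  have hre1 : ∀ t ∈ Icc (0:ℝ) 1, 0 ≤ (A1 t).re ∧ (A1 t).re ≤ 1 := by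
    intro t ht
    have h1 := c01 1 i1 t ht
    have h2 := c11 0 i0 t ht
    rw [hL1] at h1
    rw [hL0] at h2
    simp [ip] at h1 h2
    exact ⟨h1, h2⟩
  have hre2 : ∀ t ∈ Icc (0:ℝ) 1, 0 ≤ (A2 t).re ∧ (A2 t).re ≤ 1 := by
    intro t ht
    have h1 := c02 1 i1 t ht
    have h2 := c12 0 i0 t ht
    rw [hL1] at h1
    rw [hL0] at h2
    simp [ip] at h1 h2
    exact ⟨h1, h2⟩
  have hS := SD_closed hL
  have e1 : ∀ t ∈ Icc (0:ℝ) 1, A1 0 - Complex.I * (A2 t - A1 0) ∉ Comp (SD L) z0 := by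
    intro t ht
    rw [hA10]
    obtain ⟨p, hp⟩ : ∃ p, p = A2 t := ⟨_, rfl⟩
    rw [← hp]
    have hp1 := hre2 t ht
    rw [← hp] at hp1
    by_cases hp0 : p = 0
    · intro h
      apply comp_sub _ _ h
      left
      exact ⟨0, i0, by rw [hp0, hL0]; simp⟩
    apply notMem_of_seg (c := ⟨-1, -1⟩) hS ?_
      (SD_sep hL hL0 hL1 hre hz0 (by norm_num) (Or.inl (by norm_num)))
    intro τ hτ h
    have f1 : (0 - Complex.I * (p - 0) + τ * ((⟨-1, -1⟩ : ℂ) - (0 - Complex.I * (p - 0)))).re =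
        (1 - τ) * p.im - τ := by simp; ring
    have f2 : (0 - Complex.I * (p - 0) + τ * ((⟨-1, -1⟩ : ℂ) - (0 - Complex.I * (p - 0)))).im =
        - ((1 - τ) * p.re) - τ := by simp; ring
    have hτ0 := hτ.1
    have hτ1 : 0 ≤ 1 - τ := by linarith [hτ.2]
    have g1 := mul_nonneg hτ1 hp1.1
    rcases SD_mem h with ⟨s, hs, h⟩ | ⟨h, -⟩ | ⟨h, -⟩
    · by_cases hy : 0 ≤ p.im
      · have h3 := c02 s hs t ht
        rw [h, ← hp, ip, f1, f2] at h3
        have h4 : 0 < p.re + p.im := by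
          by_contra hcon
          apply hp0
          apply Complex.ext
          · simp; linarith [hp1.1]
          · simp; linarith [hp1.1]
        have := mul_pos hτ0 h4
        nlinarith
      · push Not at hy
        have h3 := (hre s hs).1
        rw [h, f1] at h3
        nlinarith [mul_nonneg hτ1 (neg_nonneg.2 hy.le)]
    · rw [f2] at h; linarith
    · rw [f2] at h; linarith
  have e2 : ∀ t ∈ Icc (0:ℝ) 1, A2 1 - Complex.I * (A2 1 - A1 t) ∉ Comp (SD L) z0 := by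
    intro t ht
    rw [hA21]
    obtain ⟨q, hq⟩ : ∃ q, q = A1 t := ⟨_, rfl⟩
    rw [← hq]
    have hq1 := hre1 t ht
    rw [← hq] at hq1
    by_cases hq0 : q = 1
    · intro h
      apply comp_sub _ _ h
      left
      exact ⟨1, i1, by rw [hq0, hL1]; simp⟩
    apply notMem_of_seg (c := ⟨2, -1⟩) hS ?_
      (SD_sep hL hL0 hL1 hre hz0 (by norm_num) (Or.inr (by norm_num)))
    intro τ hτ h
    have f1 : (1 - Complex.I * (1 - q) + τ * ((⟨2, -1⟩ : ℂ) - (1 - Complex.I * (1 - q)))).re =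
        1 - (1 - τ) * q.im + τ := by simp; ring
    have f2 : (1 - Complex.I * (1 - q) + τ * ((⟨2, -1⟩ : ℂ) - (1 - Complex.I * (1 - q)))).im =
        (1 - τ) * (q.re - 1) - τ := by simp; ring
    have hτ0 := hτ.1
    have hτ1 : 0 ≤ 1 - τ := by linarith [hτ.2]
    have g1 := mul_nonneg hτ1 (sub_nonneg.2 hq1.2)
    rcases SD_mem h with ⟨s, hs, h⟩ | ⟨h, -⟩ | ⟨h, -⟩
    · by_cases hy : 0 ≤ q.im
      · have h3 := c11 s hs t ht
        rw [h, ← hq, ip, Complex.sub_re, Complex.sub_im, Complex.sub_re, Complex.sub_im, f1, f2] at h3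
        simp only [Complex.one_re, Complex.one_im] at h3
        have h4 : 0 < 1 - q.re + q.im := by
          by_contra hcon
          apply hq0
          apply Complex.ext
          · simp; linarith [hq1.2]
          · simp; linarith [hq1.2]
        have := mul_pos hτ0 h4
        nlinarith
      · push Not at hy
        have h3 := (hre s hs).2
        rw [h, f1] at h3
        nlinarith [mul_nonneg hτ1 (neg_nonneg.2 hy.le)]
    · rw [f2] at h; linarith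
    · rw [f2] at h; linarith
  obtain ⟨t1, ht1, t2, ht2, ha, hb⟩ := engine hS ⟨L 0, Or.inl ⟨0, i0, rfl⟩⟩ z0 hA1 hA2 e1 e4 e3 e2
  refine ⟨t1, ht1, t2, ht2, ?_⟩
  have hq := hre1 t1 ht1
  have hp := hre2 t2 ht2
  have C01 := fun s hs => c01 s hs t1 ht1
  have C02 := fun s hs => c02 s hs t2 ht2
  have C11 := fun s hs => c11 s hs t1 ht1
  have C12 := fun s hs => c12 s hs t2 ht2
  obtain ⟨q, hqd⟩ : ∃ q, q = A1 t1 := ⟨_, rfl⟩
  obtain ⟨p, hpd⟩ : ∃ p, p = A2 t2 := ⟨_, rfl⟩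
  rw [← hqd, ← hpd] at ha hb ⊢
  rw [← hqd] at hq C01 C11
  rw [← hpd] at hp C02 C12
  have a1 : (q - Complex.I * (p - q)).re = q.re + (p.im - q.im) := by simp; ring
  have a2 : (q - Complex.I * (p - q)).im = q.im - (p.re - q.re) := by simp
  have b1 : (p - Complex.I * (p - q)).re = p.re + (p.im - q.im) := by simp; ring
  have b2 : (p - Complex.I * (p - q)).im = p.im - (p.re - q.re) := by simp
  rcases SD_mem' hL0 hL1 ha with ⟨s1, hs1, ha⟩ | ⟨ha, ha'⟩ | ⟨ha, ha'⟩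
  · rcases SD_mem' hL0 hL1 hb with ⟨s2, hs2, hb⟩ | ⟨hb, hb'⟩ | ⟨hb, hb'⟩
    · exact ⟨s1, hs1, s2, hs2, ha.symm, hb.symm⟩
    · exfalso
      have h1 := hre s1 hs1
      have h2 := C02 s1 hs1
      rw [ha] at h1 h2
      rw [a1] at h1
      rw [b1] at hb'
      rw [b2] at hb
      rw [ip, a1, a2] at h2
      apply ex1 (ax := p.re + (p.im - q.im)) (sy := p.im - q.im) (sx := -(p.re - q.re)) hb'
        (by linarith) (by linarith)
      have e : q.im = p.re - q.re - (p.im - q.im) := by linarith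
      have e' : p.im = p.re - q.re := by linarith
      calc (0:ℝ) ≤ _ := h2
        _ = _ := by
          rw [show q.im - (p.re - q.re) = -(p.im - q.im) by linarith, e']
          ring
    · exfalso
      have h1 := hre s1 hs1
      have h2 := C12 s1 hs1
      rw [ha] at h1 h2
      rw [a1] at h1
      rw [b1] at hb'
      rw [b2] at hb
      rw [ip, Complex.sub_re, Complex.sub_im, a1, a2] at h2
      simp only [Complex.one_re, Complex.one_im, Complex.sub_re, Complex.sub_im, sub_zero] at h2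
      apply ex1 (ax := -(p.re + (p.im - q.im) - 1)) (sy := -(p.im - q.im)) (sx := (p.re - q.re))
        (by linarith) (by linarith) (by linarith)
      have e' : p.im = p.re - q.re := by linarith
      calc (0:ℝ) ≤ _ := h2
        _ = _ := by
          rw [show q.im - (p.re - q.re) = -(p.im - q.im) by linarith, e']
          ring
  · exfalso
    rw [a1] at ha'
    rw [a2] at ha
    rcases SD_mem' hL0 hL1 hb with ⟨s2, hs2, hb⟩ | ⟨hb, hb'⟩ | ⟨hb, hb'⟩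
    · have h1 := hre s2 hs2
      have h2 := C01 s2 hs2
      rw [hb] at h1 h2
      rw [b1] at h1
      rw [ip, b1, b2] at h2
      apply ex1 (ax := q.re + (p.im - q.im)) (sy := p.im - q.im) (sx := p.re - q.re) ha'
        (by linarith) (by linarith)
      have e' : q.im = p.re - q.re := by linarith
      calc (0:ℝ) ≤ _ := h2
        _ = _ := by
          rw [show p.im - (p.re - q.re) = (p.im - q.im) by linarith, e']
          ring
    · rw [b2] at hb; linarith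
    · rw [b2] at hb; linarith
  · exfalso
    rw [a1] at ha'
    rw [a2] at ha
    rcases SD_mem' hL0 hL1 hb with ⟨s2, hs2, hb⟩ | ⟨hb, hb'⟩ | ⟨hb, hb'⟩
    · have h1 := hre s2 hs2
      have h2 := C11 s2 hs2
      rw [hb] at h1 h2
      rw [b1] at h1
      rw [ip, Complex.sub_re, Complex.sub_im, b1, b2] at h2
      simp only [Complex.one_re, Complex.one_im, Complex.sub_re, Complex.sub_im, sub_zero] at h2
      apply ex1 (ax := -(q.re + (p.im - q.im) - 1)) (sy := -(p.im - q.im)) (sx := -(p.re - q.re))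
        (by linarith) (by linarith) (by linarith)
      have e' : q.im = p.re - q.re := by linarith
      calc (0:ℝ) ≤ _ := h2
        _ = _ := by
          rw [show p.im - (p.re - q.re) = (p.im - q.im) by linarith, e']
          ring
    · rw [b2] at hb; linarith
    · rw [b2] at hb; linarith

end Pool.Agent.H404R2.Sq
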