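import Mathlib
import Pool.Agent.H404R2.Sq.DCore

set_option autoImplicit false
open Set Topology

namespace Pool.Agent.H404R2.Sq

/-- `L` prolonged by the two rays from `1` and from `Q` pointing away from `0`. -/
def SW (L : ℝ → ℂ) (Q : ℂ) : Set ℂ :=
  L '' Icc 0 1 ∪ ({z | z.im = 0 ∧ 1 ≤ z.re} ∪
    {z | Q.re * z.im = Q.im * z.re ∧ ip Q Q ≤ ip Q z})

lemma SW_closed {L : ℝ → ℂ} (hL : Continuous L) (Q : ℂ) : IsClosed (SW L Q) := by
  apply IsClosed.union
  · exact (isCompact_Icc.image hL).isClosed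
  · apply IsClosed.union
    · exact (isClosed_eq Complex.continuous_im continuous_const).inter
        (isClosed_le continuous_const Complex.continuous_re)
    · have hc : Continuous fun z : ℂ => ip Q z := by unfold ip; fun_prop
      exact (isClosed_eq (by fun_prop) (by fun_prop)).inter (isClosed_le continuous_const hc)

lemma rayQ {Q z : ℂ} (hQ : 0 < Q.im) (h1 : Q.re * z.im = Q.im * z.re) (h2 : ip Q Q ≤ ip Q z) :
    ∃ τ : ℝ, 1 ≤ τ ∧ z.re = τ * Q.re ∧ z.im = τ * Q.im := by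
  have hM : 0 < ip Q Q := by unfold ip; nlinarith [mul_self_nonneg Q.re, mul_pos hQ hQ]
  refine ⟨ip Q z / ip Q Q, ?_, ?_, ?_⟩
  · rw [le_div_iff₀ hM, one_mul]; exact h2
  · rw [div_mul_eq_mul_div, eq_div_iff hM.ne']
    unfold ip
    linear_combination (-Q.im) * h1
  · rw [div_mul_eq_mul_div, eq_div_iff hM.ne']
    unfold ip
    linear_combination (Q.re) * h1

lemma SW_mem {L : ℝ → ℂ} {Q z : ℂ} (hQ : 0 < Q.im) (h : z ∈ SW L Q) :
    (∃ s ∈ Icc (0:ℝ) 1, L s = z) ∨ (z.im = 0 ∧ 1 ≤ z.re) ∨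
      (∃ τ : ℝ, 1 ≤ τ ∧ z.re = τ * Q.re ∧ z.im = τ * Q.im) := by
  rcases h with h | h | ⟨h1, h2⟩
  · exact Or.inl h
  · exact Or.inr (Or.inl h)
  · exact Or.inr (Or.inr (rayQ hQ h1 h2))

lemma SW_mem' {L : ℝ → ℂ} {Q z : ℂ} (hQ : 0 < Q.im) (hL0 : L 0 = 1) (hL1 : L 1 = Q)
    (h : z ∈ SW L Q) :
    (∃ s ∈ Icc (0:ℝ) 1, L s = z) ∨ (z.im = 0 ∧ 1 < z.re) ∨
      (∃ τ : ℝ, 1 < τ ∧ z.re = τ * Q.re ∧ z.im = τ * Q.im) := by
  rcases SW_mem hQ h with h | ⟨h, h'⟩ | ⟨τ, h', h1, h2⟩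
  · exact Or.inl h
  · rcases h'.lt_or_eq with h2 | h2
    · exact Or.inr (Or.inl ⟨h, h2⟩)
    · left
      exact ⟨0, ⟨le_rfl, zero_le_one⟩, by rw [hL0]; exact Complex.ext h2 h.symm⟩
  · rcases h'.lt_or_eq with h3 | h3
    · exact Or.inr (Or.inr ⟨τ, h3, h1, h2⟩)
    · left
      refine ⟨1, ⟨zero_le_one, le_rfl⟩, ?_⟩
      rw [hL1]
      rw [← h3, one_mul] at h1 h2
      exact Complex.ext h1.symm h2.symm

section
variable {L A1 A2 : ℝ → ℂ} {Q : ℂ}

lemma SW_sep (hL : Continuous L) (hX : 0 < Q.im) (hD0 : 0 ≤ Q.re)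
    (hL0 : L 0 = 1) (hL1 : L 1 = Q)
    (hl0 : ∀ s ∈ Icc (0:ℝ) 1, 0 ≤ (L s).re) (hl1 : ∀ s ∈ Icc (0:ℝ) 1, (L s).re ≤ 1)
    (hl2 : ∀ s ∈ Icc (0:ℝ) 1, ip Q (L s) ≤ ip Q Q) (hne : ∀ s ∈ Icc (0:ℝ) 1, L s ≠ 0)
    {c : ℂ} (hc : 0 < c.im) (hc' : 0 < c.re * Q.im - c.im * Q.re)
    (hc2 : 1 < c.re ∨ ip Q Q < ip Q c) : c ∉ Comp (SW L Q) 0 := by
  apply sep (SW_closed hL Q) hL (fun s hs => Or.inl ⟨s, hs, rfl⟩) (eP := 1) (eQ := Q)
    (u := -(1 + Q)) (v := 1 + Q) ?_ ?_ ?_ ?_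
    ((1 + Q.re) • Complex.imCLM - Q.im • Complex.reCLM)
    (Q.im • Complex.reCLM + (1 - Q.re) • Complex.imCLM)
  · intro z h1 h2
    simp at h1 h2
    have h3 : z.im = 0 := by linarith
    rw [h3] at h2
    apply Complex.ext
    · have : Q.im * z.re = 0 := by linarith
      simpa [hX.ne'] using this
    · simpa using h3
  · simp; ring
  · simp; ring
  · simpa using hX
  · simp; nlinarith
  · simp; nlinarith
  · simp; nlinarith
  · intro τ hτ
    rw [hL0]
    right; left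
    simp [hτ]
  · intro τ hτ
    rw [hL1]
    right; right
    constructor
    · simp; ring
    · simp [ip]; nlinarith [mul_nonneg hτ (mul_self_nonneg Q.re), mul_nonneg hτ (mul_self_nonneg Q.im)]
  · intro τ hτ h
    have h1 : (0 + τ * -(1 + Q)).re = - (τ * (1 + Q.re)) := by simp; ring
    rcases eq_or_lt_of_le hτ with h0 | h0
    · have hz : (0 + (τ:ℂ) * -(1 + Q)) = 0 := by rw [← h0]; simp
      rw [hz] at h
      rcases SW_mem hX h with ⟨s, hs, h⟩ | ⟨-, h⟩ | ⟨σ, hσ, -, h⟩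
      · exact hne s hs h
      · simp at h; linarith
      · simp at h
        rcases h with h | h <;> linarith
    · have h2 : 0 < τ * (1 + Q.re) := by positivity
      rcases SW_mem hX h with ⟨s, hs, h⟩ | ⟨-, h⟩ | ⟨σ, hσ, h, -⟩
      · have := hl0 s hs
        rw [h, h1] at this
        linarith
      · rw [h1] at h; linarith
      · rw [h1] at h
        have : 0 ≤ σ * Q.re := mul_nonneg (by linarith) hD0
        linarith
  · intro τ hτ h
    have h1 : (c + τ * (1 + Q)).re = c.re + τ * (1 + Q.re) := by simp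
    have h2 : (c + τ * (1 + Q)).im = c.im + τ * Q.im := by simp
    have h3 : 0 ≤ τ * (1 + Q.re) := by positivity
    have h4 : 0 ≤ τ * Q.im := by positivity
    rcases SW_mem hX h with ⟨s, hs, h⟩ | ⟨h, -⟩ | ⟨σ, hσ, h, h'⟩
    · rcases hc2 with h5 | h5
      · have := hl1 s hs
        rw [h, h1] at this
        linarith
      · have := hl2 s hs
        rw [h] at this
        unfold ip at this h5
        rw [h1, h2] at this
        have h6 : 0 ≤ Q.re * (τ * (1 + Q.re)) := mul_nonneg hD0 h3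
        have h7 : 0 ≤ Q.im * (τ * Q.im) := mul_nonneg hX.le h4
        nlinarith
    · rw [h2] at h; linarith
    · rw [h1] at h; rw [h2] at h'
      have : c.re * Q.im - c.im * Q.re + τ * Q.im = 0 := by
        have e1 : (c.re + τ * (1 + Q.re)) * Q.im = (c.im + τ * Q.im) * Q.re := by
          rw [h, h']; ring
        nlinarith
      linarith

/-- A point having negative inner product with a point of `A` lies in the component of `0`. -/
lemma SW_half (hX : 0 < Q.im) (hL0 : L 0 = 1) (hL1 : L 1 = Q)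
    (hne : ∀ s ∈ Icc (0:ℝ) 1, L s ≠ 0) {z : ℂ} (hz : ∀ s ∈ Icc (0:ℝ) 1, 0 ≤ ip (L s) z)
    {y : ℂ} (hy : ip y z < 0) : y ∈ Comp (SW L Q) 0 := by
  apply mem_of_seg
  intro τ hτ h
  have i0 : (0:ℝ) ∈ Icc (0:ℝ) 1 := ⟨le_rfl, zero_le_one⟩
  have i1 : (1:ℝ) ∈ Icc (0:ℝ) 1 := ⟨zero_le_one, le_rfl⟩
  have e : (0:ℂ) + τ * (y - 0) = τ * y := by ring
  rw [e] at h
  rcases eq_or_lt_of_le hτ.1 with h0 | h0
  · rw [← h0] at h
    simp only [Complex.ofReal_zero, zero_mul] at h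
    rcases SW_mem hX h with ⟨s, hs, h⟩ | ⟨-, h⟩ | ⟨σ, hσ, -, h⟩
    · exact hne s hs h
    · simp at h; linarith
    · simp at h
      rcases h with h | h <;> linarith
  · have h1 : (τ * y).re = τ * y.re := by simp
    have h2 : (τ * y).im = τ * y.im := by simp
    have h3 := mul_neg_of_pos_of_neg h0 hy
    unfold ip at h3
    rcases SW_mem hX h with ⟨s, hs, h⟩ | ⟨h, h'⟩ | ⟨σ, hσ, h, h'⟩
    · have := hz s hs
      rw [h, ip, h1, h2] at this
      nlinarith
    · have := hz 0 i0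
      rw [hL0, ip] at this
      simp at this
      rw [h2] at h; rw [h1] at h'
      have e1 : τ * (y.re * z.re + y.im * z.im) = (τ * y.re) * z.re + (τ * y.im) * z.im := by ring
      rw [e1, h] at h3
      nlinarith
    · have := hz 1 i1
      rw [hL1, ip] at this
      rw [h1] at h; rw [h2] at h'
      have e1 : τ * (y.re * z.re + y.im * z.im) = (τ * y.re) * z.re + (τ * y.im) * z.im := by ring
      rw [e1, h, h'] at h3
      nlinarith

lemma SW_half' (hX : 0 < Q.im) (hL0 : L 0 = 1) (hL1 : L 1 = Q)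
    (hne : ∀ s ∈ Icc (0:ℝ) 1, L s ≠ 0) {z : ℂ} (hz : ∀ s ∈ Icc (0:ℝ) 1, 0 ≤ ip (L s) z)
    {y : ℂ} (hy : ip y z = 0) (hy0 : z = 0 → y = 0) : y ∈ closure (Comp (SW L Q) 0) := by
  by_cases h0 : z = 0
  · rw [hy0 h0]
    apply subset_closure
    apply mem_of_seg
    intro τ hτ h
    simp only [sub_zero, mul_zero, add_zero] at h
    rcases SW_mem hX h with ⟨s, hs, h⟩ | ⟨-, h⟩ | ⟨σ, hσ, -, h⟩
    · exact hne s hs h
    · simp at h; linarith
    · simp at h
      rcases h with h | h <;> linarith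
  · apply mem_closure_of_seg (c := y - z)
    intro τ hτ
    apply SW_half hX hL0 hL1 hne hz
    have hpos : 0 < z.re * z.re + z.im * z.im := by
      by_contra hcon
      apply h0
      have h1 := mul_self_nonneg z.re
      have h2 := mul_self_nonneg z.im
      apply Complex.ext
      · simp; nlinarith
      · simp; nlinarith
    have e : ip (y + τ * (y - z - y)) z = ip y z - τ * (z.re * z.re + z.im * z.im) := by
      simp [ip]; ring
    rw [e, hy]
    have := mul_pos hτ.1 hpos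
    linarith

lemma ex2 {r D X sx sy : ℝ} (hr : 0 < r) (hM : 0 < D * D + X * X)
    (α : r * (D * D + X * X) + (-sy * D + sx * X) ≤ 0)
    (β : r * (D * D + X * X) + (sx * D + sy * X) ≤ 0)
    (γ : 0 ≤ (r * D + sx) * (r * D - sy) + (r * X + sy) * (r * X + sx)) : False := by
  have h1 : (r * D + sx) * (r * D - sy) + (r * X + sy) * (r * X + sx) =
      r * (r * (D * D + X * X) + (-sy * D + sx * X) + (sx * D + sy * X)) := by ring
  have h2 : 0 < r * (D * D + X * X) := mul_pos hr hM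
  have h3 : r * (r * (D * D + X * X) + (-sy * D + sx * X) + (sx * D + sy * X)) < 0 :=
    mul_neg_of_pos_of_neg hr (by linarith)
  linarith

lemma ex3 {r D X sx sy : ℝ} (hr : 0 < r) (hM : 0 < D * D + X * X)
    (α : r * (D * D + X * X) + (-sy * D + sx * X) ≤ 0)
    (β : r * (D * D + X * X) - (sx * D + sy * X) ≤ 0)
    (γ : 0 ≤ (r * D - sx) * (r * D - sy) + (r * X - sy) * (r * X + sx)) : False := by
  have h1 : (r * D - sx) * (r * D - sy) + (r * X - sy) * (r * X + sx) =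
      r * (r * (D * D + X * X) + (-sy * D + sx * X) - (sx * D + sy * X)) := by ring
  have h2 : 0 < r * (D * D + X * X) := mul_pos hr hM
  have h3 : r * (r * (D * D + X * X) + (-sy * D + sx * X) - (sx * D + sy * X)) < 0 :=
    mul_neg_of_pos_of_neg hr (by linarith)
  linarith

/-- Core statement with rays pointing away from `Z = 0`. -/
theorem wcore (hL : Continuous L) (hA1 : Continuous A1) (hA2 : Continuous A2)
    (hX : 0 < Q.im) (hD0 : 0 ≤ Q.re) (hDX : Q.re ≤ Q.im) (hD1 : Q.re ≤ 1)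
    (hDM : Q.re ≤ ip Q Q)
    (hL0 : L 0 = 1) (hL1 : L 1 = Q) (hA10 : A1 0 = 1) (hA11 : A1 1 = 0) (hA20 : A2 0 = 0)
    (hA21 : A2 1 = Q) (hne : ∀ s ∈ Icc (0:ℝ) 1, L s ≠ 0)
    (cz1 : ∀ s ∈ Icc (0:ℝ) 1, ∀ t ∈ Icc (0:ℝ) 1, 0 ≤ ip (L s) (A1 t))
    (cz2 : ∀ s ∈ Icc (0:ℝ) 1, ∀ t ∈ Icc (0:ℝ) 1, 0 ≤ ip (L s) (A2 t))
    (cp1 : ∀ s ∈ Icc (0:ℝ) 1, ∀ t ∈ Icc (0:ℝ) 1, 0 ≤ ip (L s - 1) (A1 t - 1))
    (cp2 : ∀ s ∈ Icc (0:ℝ) 1, ∀ t ∈ Icc (0:ℝ) 1, 0 ≤ ip (L s - 1) (A2 t - 1))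
    (cq1 : ∀ s ∈ Icc (0:ℝ) 1, ∀ t ∈ Icc (0:ℝ) 1, 0 ≤ ip (L s - Q) (A1 t - Q))
    (cq2 : ∀ s ∈ Icc (0:ℝ) 1, ∀ t ∈ Icc (0:ℝ) 1, 0 ≤ ip (L s - Q) (A2 t - Q))
    (aP1 : ∀ t ∈ Icc (0:ℝ) 1, (A1 t).re ≤ 1) (aP2 : ∀ t ∈ Icc (0:ℝ) 1, (A2 t).re ≤ 1)
    (aQ1 : ∀ t ∈ Icc (0:ℝ) 1, ip Q (A1 t) ≤ ip Q Q)
    (aQ2 : ∀ t ∈ Icc (0:ℝ) 1, ip Q (A2 t) ≤ ip Q Q) :
    ∃ t1 ∈ Icc (0:ℝ) 1, ∃ t2 ∈ Icc (0:ℝ) 1, ∃ s1 ∈ Icc (0:ℝ) 1, ∃ s2 ∈ Icc (0:ℝ) 1,
      A1 t1 - Complex.I * (A2 t2 - A1 t1) = L s1 ∧ A2 t2 - Complex.I * (A2 t2 - A1 t1) = L s2 := by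
  have i0 : (0:ℝ) ∈ Icc (0:ℝ) 1 := ⟨le_rfl, zero_le_one⟩
  have i1 : (1:ℝ) ∈ Icc (0:ℝ) 1 := ⟨zero_le_one, le_rfl⟩
  have hM : 0 < Q.re * Q.re + Q.im * Q.im := by nlinarith [mul_self_nonneg Q.re, mul_pos hX hX]
  have hl0 : ∀ s ∈ Icc (0:ℝ) 1, 0 ≤ (L s).re := by
    intro s hs
    have := cz1 s hs 0 i0
    rw [hA10, ip] at this
    simpa using this
  have hl1 : ∀ s ∈ Icc (0:ℝ) 1, (L s).re ≤ 1 := by
    intro s hs
    have := cp1 s hs 1 i1
    rw [hA11, ip] at this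
    simpa using this
  have hl2 : ∀ s ∈ Icc (0:ℝ) 1, ip Q (L s) ≤ ip Q Q := by
    intro s hs
    have := cq2 s hs 0 i0
    rw [hA20] at this
    simp only [ip, Complex.sub_re, Complex.sub_im, zero_sub, Complex.neg_re, Complex.neg_im] at this
    unfold ip
    nlinarith
  have hq1 : ∀ t ∈ Icc (0:ℝ) 1, 0 ≤ (A1 t).re := by
    intro t ht
    have := cz1 0 i0 t ht
    rw [hL0, ip] at this
    simpa using this
  have hp1 : ∀ t ∈ Icc (0:ℝ) 1, 0 ≤ (A2 t).re := by
    intro t ht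
    have := cz2 0 i0 t ht
    rw [hL0, ip] at this
    simpa using this
  have hS := SW_closed hL Q
  have hsep := fun c => SW_sep (c := c) hL hX hD0 hL0 hL1 hl0 hl1 hl2 hne
  have e1 : ∀ t ∈ Icc (0:ℝ) 1, A1 0 - Complex.I * (A2 t - A1 0) ∉ Comp (SW L Q) 0 := by
    intro t ht
    rw [hA10]
    have h1 := aP2 t ht
    have h2 := cp2 1 i1 t ht
    have h3 := cz2 1 i1 t ht
    have h4 := fun s hs => cp2 s hs t ht
    rw [hL1, ip] at h2 h3
    simp only [Complex.sub_re, Complex.sub_im, Complex.one_re, Complex.one_im, sub_zero] at h2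
    obtain ⟨p, hp⟩ : ∃ p, p = A2 t := ⟨_, rfl⟩
    rw [← hp] at h1 h2 h3 h4 ⊢
    have a1 : (1 - Complex.I * (p - 1)).re = 1 + p.im := by simp
    have a2 : (1 - Complex.I * (p - 1)).im = 1 - p.re := by simp
    by_cases hpx : p.re = 1
    · intro h
      apply comp_sub _ _ h
      right; left
      rw [hpx] at h2
      have h5 : 0 ≤ p.im := by
        by_contra hcon
        push Not at hcon
        nlinarith [mul_neg_of_pos_of_neg hX hcon]
      exact ⟨by rw [a2, hpx, sub_self], by rw [a1]; linarith⟩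
    have hpx' : p.re < 1 := lt_of_le_of_ne h1 hpx
    obtain ⟨τ0, hτ0⟩ : ∃ τ0 : ℝ, τ0 = |p.im| + 1 + (1 - p.re) * Q.re / Q.im := ⟨_, rfl⟩
    have hab := neg_abs_le p.im
    have hdiv0 : 0 ≤ (1 - p.re) * Q.re / Q.im := by
      apply div_nonneg (mul_nonneg (by linarith) hD0) hX.le
    have hdiv : (1 - p.re) * Q.re / Q.im * Q.im = (1 - p.re) * Q.re := by
      field_simp
    have hτpos : 0 < τ0 := by
      rw [hτ0]; have := abs_nonneg p.im; linarith
    have hc1 : (1 - Complex.I * (p - 1) + (τ0:ℂ)).re = 1 + p.im + τ0 := by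
      rw [Complex.add_re, a1, Complex.ofReal_re]
    have hc2 : (1 - Complex.I * (p - 1) + (τ0:ℂ)).im = 1 - p.re := by
      rw [Complex.add_im, a2, Complex.ofReal_im, add_zero]
    apply notMem_of_seg (c := 1 - Complex.I * (p - 1) + τ0) hS ?_ (hsep _ ?_ ?_ (Or.inl ?_))
    · intro τ hτ h
      have e : 1 - Complex.I * (p - 1) + (τ:ℂ) *
          ((1 - Complex.I * (p - 1) + (τ0:ℂ)) - (1 - Complex.I * (p - 1))) =
          1 - Complex.I * (p - 1) + ((τ * τ0 : ℝ) : ℂ) := by push_cast; ring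
      rw [e] at h
      have hτ' := mul_pos hτ.1 hτpos
      obtain ⟨u, hu⟩ : ∃ u, u = τ * τ0 := ⟨_, rfl⟩
      rw [← hu] at h hτ'
      have b1 : (1 - Complex.I * (p - 1) + (u:ℂ)).re = 1 + p.im + u := by
        rw [Complex.add_re, a1, Complex.ofReal_re]
      have b2 : (1 - Complex.I * (p - 1) + (u:ℂ)).im = 1 - p.re := by
        rw [Complex.add_im, a2, Complex.ofReal_im, add_zero]
      rcases SW_mem hX h with ⟨s, hs, h⟩ | ⟨h, -⟩ | ⟨σ, hσ, h, h'⟩
      · have h5 := h4 s hs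
        rw [h, ip, Complex.sub_re, Complex.sub_im, b1, b2] at h5
        simp only [Complex.one_re, Complex.one_im, Complex.sub_re, Complex.sub_im] at h5
        have h6 := mul_pos hτ' (sub_pos.2 hpx')
        nlinarith
      · rw [b2] at h; linarith
      · rw [b1] at h; rw [b2] at h'
        have h6 := mul_pos hτ' hX
        have e3 : p.re = 1 - σ * Q.im := by linarith
        have e4 : p.im = σ * Q.re - 1 - u := by linarith
        rw [e3, e4] at h3
        nlinarith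
    · rw [hc2]; linarith
    · rw [hc1, hc2, hτ0]
      have : 0 ≤ |p.im| + p.im := by linarith
      nlinarith [mul_nonneg this hX.le]
    · rw [hc1, hτ0]; linarith
  have e2 : ∀ t ∈ Icc (0:ℝ) 1, A2 1 - Complex.I * (A2 1 - A1 t) ∉ Comp (SW L Q) 0 := by
    intro t ht
    rw [hA21]
    have h1 := aQ1 t ht
    have h2 := cq1 0 i0 t ht
    have h3 := hq1 t ht
    have h4 := fun s hs => cq1 s hs t ht
    rw [hL0, ip] at h2
    simp only [Complex.sub_re, Complex.sub_im, Complex.one_re, Complex.one_im, zero_sub] at h2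
    obtain ⟨q, hq⟩ : ∃ q, q = A1 t := ⟨_, rfl⟩
    rw [← hq] at h1 h2 h3 h4 ⊢
    have a1 : (Q - Complex.I * (Q - q)).re = Q.re + Q.im - q.im := by simp; ring
    have a2 : (Q - Complex.I * (Q - q)).im = Q.im - Q.re + q.re := by simp; ring
    unfold ip at h1
    by_cases hpx : Q.re * q.re + Q.im * q.im = Q.re * Q.re + Q.im * Q.im
    · intro h
      apply comp_sub _ _ h
      right; right
      have h5 : Q.re ≤ q.re := by nlinarith
      have h6 : 0 ≤ Q.im * q.re - Q.re * q.im := by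
        have h7 : Q.im * (Q.im * q.re - Q.re * q.im) =
            (Q.re * Q.re + Q.im * Q.im) * (q.re - Q.re) := by
          linear_combination (-Q.re) * hpx
        have h8 : 0 ≤ Q.im * (Q.im * q.re - Q.re * q.im) := by
          rw [h7]; exact mul_nonneg hM.le (by linarith)
        exact nonneg_of_mul_nonneg_right h8 hX
      constructor
      · rw [a1, a2]; linarith
      · unfold ip; rw [a1, a2]; nlinarith
    have hpx' : Q.re * q.re + Q.im * q.im < Q.re * Q.re + Q.im * Q.im := lt_of_le_of_ne h1 hpx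
    obtain ⟨τ0, hτ0⟩ : ∃ τ0 : ℝ, τ0 = 1 + |Q.re * q.im - Q.im * q.re| /
      (Q.re * Q.re + Q.im * Q.im) := ⟨_, rfl⟩
    have hab := le_abs_self (Q.re * q.im - Q.im * q.re)
    have hdiv0 : 0 ≤ |Q.re * q.im - Q.im * q.re| / (Q.re * Q.re + Q.im * Q.im) := by
      positivity
    have hdiv : |Q.re * q.im - Q.im * q.re| / (Q.re * Q.re + Q.im * Q.im) *
        (Q.re * Q.re + Q.im * Q.im) = |Q.re * q.im - Q.im * q.re| := by
      field_simp
    have hτpos : 0 < τ0 := by rw [hτ0]; linarith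
    have hb1 : ∀ u : ℝ, (Q - Complex.I * (Q - q) + (u:ℂ) * Q).re =
        Q.re + Q.im - q.im + u * Q.re := by
      intro u
      rw [Complex.add_re, a1]; simp
    have hb2 : ∀ u : ℝ, (Q - Complex.I * (Q - q) + (u:ℂ) * Q).im =
        Q.im - Q.re + q.re + u * Q.im := by
      intro u
      rw [Complex.add_im, a2]; simp
    apply notMem_of_seg (c := Q - Complex.I * (Q - q) + τ0 * Q) hS ?_ (hsep _ ?_ ?_ (Or.inr ?_))
    · intro τ hτ h
      have e : Q - Complex.I * (Q - q) + (τ:ℂ) *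
          ((Q - Complex.I * (Q - q) + (τ0:ℂ) * Q) - (Q - Complex.I * (Q - q))) =
          Q - Complex.I * (Q - q) + ((τ * τ0 : ℝ) : ℂ) * Q := by push_cast; ring
      rw [e] at h
      have hτ' := mul_pos hτ.1 hτpos
      obtain ⟨u, hu⟩ : ∃ u, u = τ * τ0 := ⟨_, rfl⟩
      rw [← hu] at h hτ'
      have b1 := hb1 u
      have b2 := hb2 u
      rcases SW_mem hX h with ⟨s, hs, h⟩ | ⟨h, -⟩ | ⟨σ, hσ, h, h'⟩
      · have h5 := h4 s hs
        rw [h, ip, Complex.sub_re, Complex.sub_im, b1, b2] at h5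
        simp only [Complex.sub_re, Complex.sub_im] at h5
        have h6 := mul_pos hτ' (sub_pos.2 hpx')
        nlinarith
      · rw [b2] at h
        have := mul_pos hτ' hX
        linarith
      · rw [b1] at h; rw [b2] at h'
        have e5 : (Q.re + Q.im - q.im + u * Q.re) * Q.im =
            (Q.im - Q.re + q.re + u * Q.im) * Q.re := by rw [h, h']; ring
        nlinarith
    · rw [hb2]
      have := mul_pos hτpos hX
      linarith
    · rw [hb1, hb2]; nlinarith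
    · unfold ip
      rw [hb1, hb2, hτ0]
      nlinarith
  have e3 : ∀ t ∈ Icc (0:ℝ) 1, A2 0 - Complex.I * (A2 0 - A1 t) ∈
      closure (Comp (SW L Q) 0) := by
    intro t ht
    rw [hA20]
    apply SW_half' hX hL0 hL1 hne (fun s hs => cz1 s hs t ht)
    · simp [ip]; ring
    · intro h; rw [h]; simp
  have e4 : ∀ t ∈ Icc (0:ℝ) 1, A1 1 - Complex.I * (A2 t - A1 1) ∈
      closure (Comp (SW L Q) 0) := by
    intro t ht
    rw [hA11]
    apply SW_half' hX hL0 hL1 hne (fun s hs => cz2 s hs t ht)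
    · simp [ip]; ring
    · intro h; rw [h]; simp
  obtain ⟨t1, ht1, t2, ht2, ha, hb⟩ := engine hS ⟨L 0, Or.inl ⟨0, i0, rfl⟩⟩ 0 hA1 hA2 e1 e4 e3 e2
  refine ⟨t1, ht1, t2, ht2, ?_⟩
  have hqP := aP1 t1 ht1
  have hpP := aP2 t2 ht2
  have hqQ := aQ1 t1 ht1
  have hpQ := aQ2 t2 ht2
  have CP1 := fun s hs => cp1 s hs t1 ht1
  have CP2 := fun s hs => cp2 s hs t2 ht2
  have CQ1 := fun s hs => cq1 s hs t1 ht1
  have CQ2 := fun s hs => cq2 s hs t2 ht2
  obtain ⟨q, hqd⟩ : ∃ q, q = A1 t1 := ⟨_, rfl⟩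
  obtain ⟨p, hpd⟩ : ∃ p, p = A2 t2 := ⟨_, rfl⟩
  rw [← hqd, ← hpd] at ha hb ⊢
  rw [← hqd] at hqP hqQ CP1 CQ1
  rw [← hpd] at hpP hpQ CP2 CQ2
  unfold ip at hqQ hpQ
  have a1 : (q - Complex.I * (p - q)).re = q.re + (p.im - q.im) := by simp; ring
  have a2 : (q - Complex.I * (p - q)).im = q.im - (p.re - q.re) := by simp
  have b1 : (p - Complex.I * (p - q)).re = p.re + (p.im - q.im) := by simp; ring
  have b2 : (p - Complex.I * (p - q)).im = p.im - (p.re - q.re) := by simp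
  rcases SW_mem' hX hL0 hL1 ha with ⟨s1, hs1, ha⟩ | ⟨ha, ha'⟩ | ⟨ρ, hρ, ha, ha'⟩
  · rcases SW_mem' hX hL0 hL1 hb with ⟨s2, hs2, hb⟩ | ⟨hb, hb'⟩ | ⟨σ, hσ, hb, hb'⟩
    · exact ⟨s1, hs1, s2, hs2, ha.symm, hb.symm⟩
    · exfalso
      have h1 := hl1 s1 hs1
      have h2 := CP2 s1 hs1
      rw [ha] at h1 h2
      rw [a1] at h1
      rw [b1] at hb'
      rw [b2] at hb
      rw [ip, Complex.sub_re, Complex.sub_im, a1, a2] at h2
      simp only [Complex.one_re, Complex.one_im, Complex.sub_re, Complex.sub_im, sub_zero] at h2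
      apply ex1 (ax := -(p.re + (p.im - q.im) - 1)) (sy := -(p.im - q.im)) (sx := (p.re - q.re))
        (by linarith) (by linarith) (by linarith)
      have e' : p.im = p.re - q.re := by linarith
      calc (0:ℝ) ≤ _ := h2
        _ = _ := by
          rw [show q.im - (p.re - q.re) = -(p.im - q.im) by linarith, e']
          ring
    · exfalso
      have h1 := hl2 s1 hs1
      have h2 := CQ2 s1 hs1
      rw [ha] at h1 h2
      rw [ip, ip, a1, a2] at h1
      rw [b1] at hb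
      rw [b2] at hb'
      rw [ip, Complex.sub_re, Complex.sub_im, a1, a2] at h2
      simp only [Complex.sub_re, Complex.sub_im] at h2
      have ep1 : p.re = σ * Q.re - (p.im - q.im) := by linarith
      have ep2 : p.im = σ * Q.im + (p.re - q.re) := by linarith
      obtain ⟨sx, hsx⟩ : ∃ sx, sx = p.re - q.re := ⟨_, rfl⟩
      obtain ⟨sy, hsy⟩ : ∃ sy, sy = p.im - q.im := ⟨_, rfl⟩
      have eq1 : q.re = σ * Q.re - sy - sx := by linarith
      have eq2 : q.im = σ * Q.im + sx - sy := by linarith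
      have ep1' : p.re = σ * Q.re - sy := by linarith
      have ep2' : p.im = σ * Q.im + sx := by linarith
      rw [← hsx, ← hsy, eq1, eq2] at h1
      rw [← hsx, ← hsy, eq1, eq2, ep1', ep2'] at h2
      rw [ep1', ep2'] at hpQ
      apply ex3 (r := σ - 1) (D := Q.re) (X := Q.im) (sx := sx) (sy := sy) (by linarith) hM
      · nlinarith
      · nlinarith
      · nlinarith
  · exfalso
    rw [a1] at ha'
    rw [a2] at ha
    rcases SW_mem' hX hL0 hL1 hb with ⟨s2, hs2, hb⟩ | ⟨hb, hb'⟩ | ⟨σ, hσ, hb, hb'⟩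
    · have h1 := hl1 s2 hs2
      have h2 := CP1 s2 hs2
      rw [hb] at h1 h2
      rw [b1] at h1
      rw [ip, Complex.sub_re, Complex.sub_im, b1, b2] at h2
      simp only [Complex.one_re, Complex.one_im, Complex.sub_re, Complex.sub_im, sub_zero] at h2
      apply ex1 (ax := -(q.re + (p.im - q.im) - 1)) (sy := -(p.im - q.im)) (sx := -(p.re - q.re))
        (by linarith) (by linarith) (by linarith)
      have e' : q.im = p.re - q.re := by linarith
      calc (0:ℝ) ≤ _ := h2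
        _ = _ := by
          rw [show p.im - (p.re - q.re) = (p.im - q.im) by linarith, e']
          ring
    · rw [b2] at hb
      linarith
    · rw [b1] at hb
      rw [b2] at hb'
      -- `a = 1 + r`, `b = σ Q`
      have hi := CP1 1 i1
      have hii := CQ2 0 i0
      rw [hL1, ip] at hi
      rw [hL0, ip] at hii
      simp only [Complex.one_re, Complex.one_im, Complex.sub_re, Complex.sub_im, sub_zero,
        zero_sub] at hi hii
      obtain ⟨r, hr⟩ : ∃ r, r = q.re + (p.im - q.im) - 1 := ⟨_, rfl⟩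
      have hsy : p.im - q.im = σ * Q.im := by linarith
      have hsx : p.re - q.re = σ * Q.re - 1 - r := by linarith
      have eq1 : q.re = 1 + r - σ * Q.im := by linarith
      have eq2 : q.im = σ * Q.re - 1 - r := by linarith
      have ep1 : p.re = σ * Q.re - σ * Q.im := by linarith
      have ep2 : p.im = σ * Q.re - 1 - r + σ * Q.im := by linarith
      rw [eq1, eq2] at hi
      rw [ep1, ep2] at hii
      have hr0 : 0 < r := by linarith
      have hσ0 : 0 < σ - 1 := by linarith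
      have key : 0 ≤ (Q.re - 1) * r + (σ - 1) * (Q.re - (Q.re * Q.re + Q.im * Q.im)) := by
        nlinarith
      unfold ip at hDM
      have k1 : 0 ≤ (1 - Q.re) * r := mul_nonneg (by linarith) hr0.le
      have k2 : 0 ≤ (σ - 1) * (Q.re * Q.re + Q.im * Q.im - Q.re) :=
        mul_nonneg hσ0.le (by linarith)
      have k3 : (1 - Q.re) * r = 0 := by nlinarith
      have k4 : Q.re = 1 := by
        rcases mul_eq_zero.1 k3 with h | h <;> linarith
      have k5 : 0 < (σ - 1) * (Q.im * Q.im) := mul_pos hσ0 (mul_pos hX hX)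
      rw [k4] at key
      nlinarith
  · exfalso
    rw [a1] at ha
    rw [a2] at ha'
    rcases SW_mem' hX hL0 hL1 hb with ⟨s2, hs2, hb⟩ | ⟨hb, hb'⟩ | ⟨σ, hσ, hb, hb'⟩
    · have h1 := hl2 s2 hs2
      have h2 := CQ1 s2 hs2
      rw [hb] at h1 h2
      rw [ip, ip, b1, b2] at h1
      rw [ip, Complex.sub_re, Complex.sub_im, b1, b2] at h2
      simp only [Complex.sub_re, Complex.sub_im] at h2
      obtain ⟨sx, hsx⟩ : ∃ sx, sx = p.re - q.re := ⟨_, rfl⟩
      obtain ⟨sy, hsy⟩ : ∃ sy, sy = p.im - q.im := ⟨_, rfl⟩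
      have eq1 : q.re = ρ * Q.re - sy := by linarith
      have eq2 : q.im = ρ * Q.im + sx := by linarith
      have ep1 : p.re = ρ * Q.re - sy + sx := by linarith
      have ep2 : p.im = ρ * Q.im + sx + sy := by linarith
      rw [← hsx, ← hsy, ep1, ep2] at h1
      rw [← hsx, ← hsy, eq1, eq2, ep1, ep2] at h2
      rw [eq1, eq2] at hqQ
      apply ex2 (r := ρ - 1) (D := Q.re) (X := Q.im) (sx := sx) (sy := sy) (by linarith) hM
      · nlinarith
      · nlinarith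
      · nlinarith
    · rw [b1] at hb'
      rw [b2] at hb
      have hsy : p.im - q.im = - (ρ * Q.im) := by linarith
      have hρ0 : 0 < ρ * Q.im := mul_pos (by linarith) hX
      linarith
    · rw [b1] at hb
      rw [b2] at hb'
      have hsy : p.im - q.im = (σ - ρ) * Q.im := by linarith
      have hsx : p.re - q.re = (σ - ρ) * Q.re := by linarith
      have eq1 : q.re = ρ * Q.re - (σ - ρ) * Q.im := by linarith
      have eq2 : q.im = ρ * Q.im + (σ - ρ) * Q.re := by linarith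
      rw [eq1, eq2] at hqQ
      have : 0 < (ρ - 1) * (Q.re * Q.re + Q.im * Q.im) := mul_pos (by linarith) hM
      nlinarith

end

end Pool.Agent.H404R2.Sq
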