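import Mathlib
import Pool.Agent.H404R2.Sq.WCore

set_option autoImplicit false
open Set Topology

namespace Pool.Agent.H404R2.Sq

lemma ip_div (a b w : ℂ) (hw : w ≠ 0) : ip (a / w) (b / w) = ip a b / Complex.normSq w := by
  have h : Complex.normSq w ≠ 0 := by simpa using hw
  unfold ip
  rw [Complex.div_re, Complex.div_re, Complex.div_im, Complex.div_im]
  field_simp
  rw [Complex.normSq_apply]
  ring

lemma ip_neg (a b : ℂ) : ip (-a) (-b) = ip a b := by
  simp [ip]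

section
variable {L A : ℝ → ℂ} {Z : ℂ} {T : ℝ}

lemma SD_sep2 (hL : Continuous L) (hL0 : L 0 = 0) (hL1 : L 1 = 1) {z0 c : ℂ}
    (hz0 : ∀ τ : ℝ, 0 ≤ τ → z0 + τ * Complex.I ∉ SD L)
    (hc : ∀ τ : ℝ, 0 ≤ τ → c + τ * -Complex.I ∉ SD L) : c ∉ Comp (SD L) z0 := by
  apply sep (SD_closed hL) hL (fun s hs => Or.inl ⟨s, hs, rfl⟩) (eP := -1) (eQ := 1)
    (u := Complex.I) (v := -Complex.I) ?_ ?_ hz0 hc Complex.reCLM (-Complex.imCLM)
  · intro z h1 h2
    apply Complex.ext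
    · simpa using h1
    · simpa using h2
  · simp
  · simp
  · simp
  · simp
  · simp
  · simp
  · intro τ hτ
    rw [hL0]
    right; left
    simp [hτ]
  · intro τ hτ
    rw [hL1]
    right; right
    simp [hτ]

/-- `Z` sees nothing of `L` above it. -/
lemma up_free (_hL0 : L 0 = 0) (hT0 : 0 < T) (hT1 : T < 1) (hA0 : A 0 = 0)
    (hAT : A T = Z) (hZ : 0 < Z.im)
    (hdisj : ∀ s ∈ Icc (0:ℝ) 1, ∀ t ∈ Ioo (0:ℝ) 1, L s ≠ A t)
    (cZ : ∀ s ∈ Icc (0:ℝ) 1, ∀ t ∈ Icc (0:ℝ) 1, 0 ≤ ip (L s - Z) (A t - Z)) :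
    ∀ τ : ℝ, 0 ≤ τ → Z + τ * Complex.I ∉ SD L := by
  intro τ hτ h
  have h1 : (Z + τ * Complex.I).re = Z.re := by simp
  have h2 : (Z + τ * Complex.I).im = Z.im + τ := by simp
  rcases SD_mem h with ⟨s, hs, h⟩ | ⟨h, -⟩ | ⟨h, -⟩
  · have h3 := cZ s hs 0 ⟨le_rfl, zero_le_one⟩
    rw [h, hA0, ip, Complex.sub_re, Complex.sub_im, h1, h2] at h3
    simp only [sub_self, zero_mul, zero_add, zero_sub, Complex.neg_im] at h3
    have h4 : τ = 0 := by
      by_contra hne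
      have : 0 < τ := lt_of_le_of_ne hτ (Ne.symm hne)
      nlinarith [mul_pos this hZ]
    apply hdisj s hs T ⟨hT0, hT1⟩
    rw [h, hAT, h4]; simp
  · rw [h2] at h; linarith
  · rw [h2] at h; linarith

/-- The points of `A` see `Z` and the two endpoints of `L` under non-obtuse angles. -/
lemma aa (hL : Continuous L) (hA : Continuous A) (hT0 : 0 < T) (hT1 : T < 1)
    (hL0 : L 0 = 0) (hL1 : L 1 = 1) (hA0 : A 0 = 0) (hAT : A T = Z) (hA1 : A 1 = 1)
    (hZ : 0 < Z.im)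
    (hdisj : ∀ s ∈ Icc (0:ℝ) 1, ∀ t ∈ Ioo (0:ℝ) 1, L s ≠ A t)
    (c0 : ∀ s ∈ Icc (0:ℝ) 1, ∀ t ∈ Icc (0:ℝ) 1, 0 ≤ ip (L s) (A t))
    (c1 : ∀ s ∈ Icc (0:ℝ) 1, ∀ t ∈ Icc (0:ℝ) 1, 0 ≤ ip (L s - 1) (A t - 1))
    (cZ : ∀ s ∈ Icc (0:ℝ) 1, ∀ t ∈ Icc (0:ℝ) 1, 0 ≤ ip (L s - Z) (A t - Z))
    {t : ℝ} (ht : t ∈ Icc (0:ℝ) 1) : 0 ≤ ip Z (A t) ∧ 0 ≤ ip (Z - 1) (A t - 1) := by
  have i0 : (0:ℝ) ∈ Icc (0:ℝ) 1 := ⟨le_rfl, zero_le_one⟩
  have i1 : (1:ℝ) ∈ Icc (0:ℝ) 1 := ⟨zero_le_one, le_rfl⟩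
  have iT : T ∈ Icc (0:ℝ) 1 := ⟨hT0.le, hT1.le⟩
  have hre : ∀ t ∈ Icc (0:ℝ) 1, 0 ≤ (A t).re ∧ (A t).re ≤ 1 := by
    intro t ht
    have h1 := c0 1 i1 t ht
    have h2 := c1 0 i0 t ht
    rw [hL1] at h1
    rw [hL0] at h2
    simp [ip] at h1 h2
    exact ⟨h1, h2⟩
  have hZre := hre T iT
  rw [hAT] at hZre
  by_cases ht0 : t = 0
  · rw [ht0, hA0]
    constructor
    · simp [ip]
    · simp [ip, hZre.2]
  by_cases ht1 : t = 1
  · rw [ht1, hA1]
    constructor
    · simp [ip, hZre.1]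
    · simp [ip]
  have ht' : t ∈ Ioo (0:ℝ) 1 :=
    ⟨lt_of_le_of_ne ht.1 (Ne.symm ht0), lt_of_le_of_ne ht.2 ht1⟩
  -- the point `A t` is in the component of `Z`
  have hcomp : A t ∈ Comp (SD L) Z := by
    have hK : IsPreconnected (A '' (uIcc T t)) := isPreconnected_uIcc.image _ hA.continuousOn
    have hsub : A '' (uIcc T t) ⊆ Comp (SD L) Z := by
      apply sub_comp hK ?_ ⟨T, left_mem_uIcc, hAT⟩
      rw [Set.disjoint_left]
      rintro _ ⟨u, hu, rfl⟩ h
      have hu' : u ∈ Ioo (0:ℝ) 1 := by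
        rw [mem_uIcc] at hu
        rcases hu with hu | hu
        · exact ⟨by linarith [hu.1], by linarith [hu.2, ht'.2]⟩
        · exact ⟨by linarith [hu.1, ht'.1], by linarith [hu.2]⟩
      have hure := hre u ⟨hu'.1.le, hu'.2.le⟩
      rcases SD_mem h with ⟨s, hs, h⟩ | ⟨h, h'⟩ | ⟨h, h'⟩
      · exact hdisj s hs u hu' h
      · apply hdisj 0 i0 u hu'
        rw [hL0]
        exact Complex.ext (by simp; linarith) (by simpa using h.symm)
      · apply hdisj 1 i1 u hu'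
        rw [hL1]
        exact Complex.ext (by simp; linarith) (by simpa using h.symm)
    exact hsub ⟨t, right_mem_uIcc, rfl⟩
  have hup := up_free hL0 hT0 hT1 hA0 hAT hZ hdisj cZ
  have hzre := hre t ht
  obtain ⟨z, hz⟩ : ∃ z, z = A t := ⟨_, rfl⟩
  have hdown : ∀ (P : ℝ → Prop), (∀ s ∈ Icc (0:ℝ) 1, ∀ τ : ℝ, 0 ≤ τ → L s = z + τ * -Complex.I → False) →
      z.im < 0 → False := by
    intro _ h1 h2
    apply SD_sep2 hL hL0 hL1 hup (c := z) ?_ (hz ▸ hcomp)
    intro τ hτ h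
    have e1 : (z + τ * -Complex.I).re = z.re := by simp
    have e2 : (z + τ * -Complex.I).im = z.im - τ := by simp [sub_eq_add_neg]
    rcases SD_mem h with ⟨s, hs, h⟩ | ⟨h, h'⟩ | ⟨h, h'⟩
    · exact h1 s hs τ hτ h
    · rw [e2] at h; linarith
    · rw [e2] at h; linarith
  rw [← hz] at hzre ⊢
  constructor
  · by_contra hcon
    push Not at hcon
    unfold ip at hcon
    have h0 : 0 ≤ Z.re * z.re := mul_nonneg hZre.1 hzre.1
    have hzim : z.im < 0 := by
      by_contra hc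
      push Not at hc
      have := mul_nonneg hZ.le hc
      linarith
    apply hdown (fun _ => True) ?_ hzim
    intro s hs τ hτ h
    have h3 := c0 s hs T iT
    have e1 : (z + τ * -Complex.I).re = z.re := by simp
    have e2 : (z + τ * -Complex.I).im = z.im - τ := by simp [sub_eq_add_neg]
    rw [h, hAT, ip, e1, e2] at h3
    have := mul_nonneg hτ hZ.le
    nlinarith
  · by_contra hcon
    push Not at hcon
    unfold ip at hcon
    simp only [Complex.sub_re, Complex.sub_im, Complex.one_re, Complex.one_im, sub_zero] at hcon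
    have h0 : 0 ≤ (1 - Z.re) * (1 - z.re) := mul_nonneg (by linarith) (by linarith)
    have hzim : z.im < 0 := by
      by_contra hc
      push Not at hc
      have := mul_nonneg hZ.le hc
      nlinarith
    apply hdown (fun _ => True) ?_ hzim
    intro s hs τ hτ h
    have h3 := c1 s hs T iT
    have e1 : (z + τ * -Complex.I).re = z.re := by simp
    have e2 : (z + τ * -Complex.I).im = z.im - τ := by simp [sub_eq_add_neg]
    rw [h, hAT, ip, Complex.sub_re, Complex.sub_im, e1, e2] at h3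
    simp only [Complex.sub_re, Complex.sub_im, Complex.one_re, Complex.one_im, sub_zero] at h3
    have := mul_nonneg hτ hZ.le
    nlinarith

/-- closure points of the component of `Z`, horizontal rays. -/
lemma SD_half (hup : ∀ τ : ℝ, 0 ≤ τ → Z + τ * Complex.I ∉ SD L) (hZ : 0 < Z.im) {z : ℂ}
    (hz : ∀ s ∈ Icc (0:ℝ) 1, 0 ≤ ip (L s - Z) (z - Z)) {y : ℂ} (hy : ip (y - Z) (z - Z) = 0)
    (hyim : 0 < y.im) (hy0 : z = Z → y = Z) : y ∈ closure (Comp (SD L) Z) := by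
  have hZS : Z ∉ SD L := by simpa using hup 0 le_rfl
  by_cases h0 : z = Z
  · rw [hy0 h0]
    apply subset_closure
    exact mem_connectedComponentIn hZS
  have hpos : 0 < (z.re - Z.re) * (z.re - Z.re) + (z.im - Z.im) * (z.im - Z.im) := by
    by_contra hcon
    apply h0
    have h1 := mul_self_nonneg (z.re - Z.re)
    have h2 := mul_self_nonneg (z.im - Z.im)
    apply Complex.ext
    · nlinarith
    · nlinarith
  obtain ⟨δ, hδ⟩ : ∃ δ : ℝ, δ = Z.im / (2 * (1 + |z.im - Z.im|)) := ⟨_, rfl⟩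
  have habs := abs_nonneg (z.im - Z.im)
  have hδ0 : 0 < δ := by rw [hδ]; positivity
  have hδ1 : δ * |z.im - Z.im| < Z.im := by
    have : δ * (2 * (1 + |z.im - Z.im|)) = Z.im := by
      rw [hδ]; field_simp
    nlinarith
  have hδ2 : δ * (z.im - Z.im) < Z.im :=
    lt_of_le_of_lt (mul_le_mul_of_nonneg_left (le_abs_self _) hδ0.le) hδ1
  -- the point `c = Z - δ (z - Z)`
  have hc1 : (Z - δ * (z - Z)).re = Z.re - δ * (z.re - Z.re) := by simp
  have hc2 : (Z - δ * (z - Z)).im = Z.im - δ * (z.im - Z.im) := by simp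
  have hcomp : Z - δ * (z - Z) ∈ Comp (SD L) Z := by
    apply mem_of_seg
    intro τ hτ h
    rcases eq_or_lt_of_le hτ.1 with h1 | h1
    · rw [← h1] at h
      simp only [Complex.ofReal_zero, zero_mul, add_zero] at h
      exact hZS h
    have e1 : (Z + τ * (Z - δ * (z - Z) - Z)).re = Z.re - τ * (δ * (z.re - Z.re)) := by
      simp; ring
    have e2 : (Z + τ * (Z - δ * (z - Z) - Z)).im = Z.im - τ * (δ * (z.im - Z.im)) := by
      simp; ring
    have him : 0 < Z.im - τ * (δ * (z.im - Z.im)) := by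
      rcases le_total 0 (δ * (z.im - Z.im)) with h2 | h2
      · have := mul_le_mul_of_nonneg_right hτ.2 h2
        linarith
      · have := mul_nonneg hτ.1 (neg_nonneg.2 h2)
        linarith
    rcases SD_mem h with ⟨s, hs, h⟩ | ⟨h, -⟩ | ⟨h, -⟩
    · have h3 := hz s hs
      rw [h, ip, Complex.sub_re, Complex.sub_im, e1, e2, Complex.sub_re, Complex.sub_im] at h3
      have h4 := mul_pos (mul_pos h1 hδ0) hpos
      nlinarith
    · rw [e2] at h; linarith
    · rw [e2] at h; linarith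
  apply closure_of_seg ?_ hcomp
  intro τ hτ h
  have e1 : (y + τ * (Z - δ * (z - Z) - y)).re =
      (1 - τ) * y.re + τ * (Z.re - δ * (z.re - Z.re)) := by
    simp; ring
  have e2 : (y + τ * (Z - δ * (z - Z) - y)).im =
      (1 - τ) * y.im + τ * (Z.im - δ * (z.im - Z.im)) := by
    simp; ring
  have him : 0 < (1 - τ) * y.im + τ * (Z.im - δ * (z.im - Z.im)) := by
    have h1 : 0 ≤ (1 - τ) * y.im := mul_nonneg (by linarith [hτ.2]) hyim.le
    have h2 : 0 < τ * (Z.im - δ * (z.im - Z.im)) := mul_pos hτ.1 (by linarith)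
    linarith
  rcases SD_mem h with ⟨s, hs, h⟩ | ⟨h, -⟩ | ⟨h, -⟩
  · have h3 := hz s hs
    rw [h, ip, Complex.sub_re, Complex.sub_im, e1, e2, Complex.sub_re, Complex.sub_im] at h3
    rw [ip, Complex.sub_re, Complex.sub_im, Complex.sub_re, Complex.sub_im] at hy
    have h4 := mul_pos (mul_pos hτ.1 hδ0) hpos
    have e3 : ((1 - τ) * y.re + τ * (Z.re - δ * (z.re - Z.re)) - Z.re) * (z.re - Z.re) +
        ((1 - τ) * y.im + τ * (Z.im - δ * (z.im - Z.im)) - Z.im) * (z.im - Z.im) =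
        (1 - τ) * ((y.re - Z.re) * (z.re - Z.re) + (y.im - Z.im) * (z.im - Z.im)) -
        τ * δ * ((z.re - Z.re) * (z.re - Z.re) + (z.im - Z.im) * (z.im - Z.im)) := by ring
    rw [e3, hy] at h3
    linarith
  · rw [e2] at h; linarith
  · rw [e2] at h; linarith

end

end Pool.Agent.H404R2.Sq
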