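import Mathlib
import Pool.Agent.H404R2.Sq.TCore

set_option autoImplicit false
open Set Topology

namespace Pool.Agent.H404R2.Sq

section
variable {L A : ℝ → ℂ} {Z : ℂ} {T : ℝ}

lemma mulT {T : ℝ} (hT0 : 0 < T) (hT1 : T < 1) {t : ℝ} (ht : t ∈ Icc (0:ℝ) 1) :
    t * T ∈ Icc (0:ℝ) 1 ∧ T + t * (1 - T) ∈ Icc (0:ℝ) 1 := by
  obtain ⟨h1, h2⟩ := ht
  refine ⟨⟨by positivity, by nlinarith⟩, ⟨by nlinarith, by nlinarith⟩⟩

lemma mulT' {T : ℝ} (hT0 : 0 < T) (hT1 : T < 1) {t : ℝ} (ht : t ∈ Icc (0:ℝ) 1) :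
    t * T ∈ Icc (0:ℝ) T ∧ T + t * (1 - T) ∈ Icc T 1 := by
  obtain ⟨h1, h2⟩ := ht
  refine ⟨⟨by positivity, by nlinarith⟩, ⟨by nlinarith, by nlinarith⟩⟩

/-- The oriented theorem in the frame `P = 0`, `Q = 1`, `Im Z > 0`. -/
theorem tcore (hL : Continuous L) (hA : Continuous A) (hT0 : 0 < T) (hT1 : T < 1)
    (hL0 : L 0 = 0) (hL1 : L 1 = 1) (hA0 : A 0 = 0) (hAT : A T = Z) (hA1 : A 1 = 1)
    (hZ : 0 < Z.im)
    (hdisj : ∀ s ∈ Icc (0:ℝ) 1, ∀ t ∈ Ioo (0:ℝ) 1, L s ≠ A t)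
    (c0 : ∀ s ∈ Icc (0:ℝ) 1, ∀ t ∈ Icc (0:ℝ) 1, 0 ≤ ip (L s) (A t))
    (c1 : ∀ s ∈ Icc (0:ℝ) 1, ∀ t ∈ Icc (0:ℝ) 1, 0 ≤ ip (L s - 1) (A t - 1))
    (cZ : ∀ s ∈ Icc (0:ℝ) 1, ∀ t ∈ Icc (0:ℝ) 1, 0 ≤ ip (L s - Z) (A t - Z)) :
    ∃ t1 ∈ Icc (0:ℝ) T, ∃ t2 ∈ Icc T 1, ∃ s1 ∈ Icc (0:ℝ) 1, ∃ s2 ∈ Icc (0:ℝ) 1,
      A t1 - Complex.I * (A t2 - A t1) = L s1 ∧ A t2 - Complex.I * (A t2 - A t1) = L s2 := by
  have i0 : (0:ℝ) ∈ Icc (0:ℝ) 1 := ⟨le_rfl, zero_le_one⟩
  have i1 : (1:ℝ) ∈ Icc (0:ℝ) 1 := ⟨zero_le_one, le_rfl⟩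
  have iT : T ∈ Icc (0:ℝ) 1 := ⟨hT0.le, hT1.le⟩
  have hre : ∀ t ∈ Icc (0:ℝ) 1, 0 ≤ (A t).re ∧ (A t).re ≤ 1 := by
    intro t ht
    have h1 := c0 1 i1 t ht
    have h2 := c1 0 i0 t ht
    rw [hL1] at h1
    rw [hL0] at h2
    simp [ip] at h1 h2
    exact ⟨h1, h2⟩
  have hZre := hre T iT
  rw [hAT] at hZre
  have hup := up_free hL0 hT0 hT1 hA0 hAT hZ hdisj cZ
  have hc1 : Continuous fun t : ℝ => A (t * T) := hA.comp (by fun_prop)
  have hc2 : Continuous fun t : ℝ => A (T + t * (1 - T)) := hA.comp (by fun_prop)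
  by_cases hbig : 1 < Z.im
  · -- horizontal rays
    obtain ⟨t1, ht1, t2, ht2, s1, hs1, s2, hs2, e1, e2⟩ := dcore
      (A1 := fun t => A (t * T)) (A2 := fun t => A (T + t * (1 - T))) hL hc1 hc2 hL0 hL1
      (by simpa using hA0) (by simpa using hA1)
      (fun s hs t ht => c0 s hs _ (mulT hT0 hT1 ht).1)
      (fun s hs t ht => c0 s hs _ (mulT hT0 hT1 ht).2)
      (fun s hs t ht => c1 s hs _ (mulT hT0 hT1 ht).1)
      (fun s hs t ht => c1 s hs _ (mulT hT0 hT1 ht).2)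
      hup
      (by
        intro t ht
        simp only [one_mul]
        rw [hAT]
        have hr := hre _ (mulT hT0 hT1 ht).2
        have hz := fun s hs => cZ s hs _ (mulT hT0 hT1 ht).2
        obtain ⟨p, hp⟩ : ∃ p, p = A (T + t * (1 - T)) := ⟨_, rfl⟩
        rw [← hp] at hr ⊢
        simp only [← hp] at hz
        apply SD_half hup hZ hz
        · simp [ip]; ring
        · simp; linarith [hr.2, hZre.1]
        · intro h; rw [h]; simp)
      (by
        intro t ht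
        simp only [zero_mul, add_zero]
        rw [hAT]
        have hr := hre _ (mulT hT0 hT1 ht).1
        have hz := fun s hs => cZ s hs _ (mulT hT0 hT1 ht).1
        obtain ⟨q, hq⟩ : ∃ q, q = A (t * T) := ⟨_, rfl⟩
        rw [← hq] at hr ⊢
        simp only [← hq] at hz
        apply SD_half hup hZ hz
        · simp [ip]; ring
        · simp; linarith [hr.1, hZre.2]
        · intro h; rw [h]; simp)
    exact ⟨t1 * T, (mulT' hT0 hT1 ht1).1, T + t2 * (1 - T), (mulT' hT0 hT1 ht2).2, s1, hs1, s2, hs2,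
      e1, e2⟩
  · -- rays pointing away from `Z`
    push Not at hbig
    have haa := fun t ht => aa (t := t) hL hA hT0 hT1 hL0 hL1 hA0 hAT hA1 hZ hdisj c0 c1 cZ ht
    have hZ0 : Z ≠ 0 := by
      intro h; rw [h] at hZ; simp at hZ
    have hn : 0 < Complex.normSq Z := Complex.normSq_pos.2 hZ0
    have hnv : Complex.normSq Z = Z.re * Z.re + Z.im * Z.im := Complex.normSq_apply Z
    let N : ℂ → ℂ := fun z => (Z - z) / Z
    have hNc : Continuous N := by fun_prop
    have hN : ∀ z w x : ℂ, ip (N z - N x) (N w - N x) = ip (z - x) (w - x) / Complex.normSq Z := by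
      intro z w x
      have h1 : ∀ z, N z - N x = (-(z - x)) / Z := by
        intro z; simp only [N]; ring
      rw [h1, h1, ip_div _ _ _ hZ0, ip_neg]
    have hN0 : N 0 = 1 := by simp [N, hZ0]
    have hNZ : N Z = 0 := by simp [N]
    have hNinj : ∀ z w, N z = N w → z = w := by
      intro z w h
      simp only [N] at h
      rw [div_left_inj' hZ0] at h
      exact sub_right_injective h
    have hQ : N 1 = 1 - 1 / Z := by simp only [N]; field_simp
    have hQre : (N 1).re = 1 - Z.re / Complex.normSq Z := by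
      rw [hQ]; simp
    have hQim : (N 1).im = Z.im / Complex.normSq Z := by
      rw [hQ]; simp [neg_div]
    have hZZ : Z.re ≤ Complex.normSq Z := by
      have := cZ 0 i0 1 i1
      rw [hL0, hA1, ip] at this
      simp only [Complex.sub_re, Complex.sub_im, Complex.one_re, Complex.one_im, zero_sub,
        Complex.neg_re, Complex.neg_im] at this
      rw [hnv]
      nlinarith
    have k1 : 0 < (N 1).im := by rw [hQim]; positivity
    have k2 : 0 ≤ (N 1).re := by
      rw [hQre, sub_nonneg, div_le_one hn]; exact hZZ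
    have k3 : (N 1).re ≤ (N 1).im := by
      rw [hQre, hQim, sub_le_iff_le_add, ← add_div, le_div_iff₀ hn, hnv]
      have h1 : 0 ≤ Z.re * (1 - Z.re) := mul_nonneg hZre.1 (by linarith [hZre.2])
      have h2 : 0 ≤ Z.im * (1 - Z.im) := mul_nonneg hZ.le (by linarith)
      nlinarith
    have k4 : (N 1).re ≤ 1 := by
      rw [hQre]
      have : 0 ≤ Z.re / Complex.normSq Z := div_nonneg hZre.1 hn.le
      linarith
    have k5 : (N 1).re ≤ ip (N 1) (N 1) := by
      have e : ip (N 1) (N 1) = ip (1 - Z) (1 - Z) / Complex.normSq Z := by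
        have := hN 1 1 Z
        rw [hNZ, sub_zero] at this
        exact this
      rw [e, hQre, le_div_iff₀ hn, sub_mul, div_mul_cancel₀ _ hn.ne', hnv, ip]
      simp only [Complex.sub_re, Complex.sub_im, Complex.one_re, Complex.one_im]
      nlinarith [hZre.2]
    have cz : ∀ s ∈ Icc (0:ℝ) 1, ∀ t ∈ Icc (0:ℝ) 1, 0 ≤ ip (N (L s)) (N (A t)) := by
      intro s hs t ht
      have := hN (L s) (A t) Z
      rw [hNZ, sub_zero, sub_zero] at this
      rw [this]
      exact div_nonneg (cZ s hs t ht) hn.le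
    have cp : ∀ s ∈ Icc (0:ℝ) 1, ∀ t ∈ Icc (0:ℝ) 1, 0 ≤ ip (N (L s) - 1) (N (A t) - 1) := by
      intro s hs t ht
      have := hN (L s) (A t) 0
      rw [hN0, sub_zero, sub_zero] at this
      rw [this]
      exact div_nonneg (c0 s hs t ht) hn.le
    have cq : ∀ s ∈ Icc (0:ℝ) 1, ∀ t ∈ Icc (0:ℝ) 1, 0 ≤ ip (N (L s) - N 1) (N (A t) - N 1) := by
      intro s hs t ht
      rw [hN (L s) (A t) 1]
      exact div_nonneg (c1 s hs t ht) hn.le
    have aP : ∀ t ∈ Icc (0:ℝ) 1, (N (A t)).re ≤ 1 := by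
      intro t ht
      have h1 := (haa t ht).1
      have := hN Z (A t) 0
      rw [hN0, hNZ, sub_zero, sub_zero] at this
      have h2 : 0 ≤ ip (0 - 1) (N (A t) - 1) := by rw [this]; exact div_nonneg h1 hn.le
      rw [ip] at h2
      simpa using h2
    have aQ : ∀ t ∈ Icc (0:ℝ) 1, ip (N 1) (N (A t)) ≤ ip (N 1) (N 1) := by
      intro t ht
      have h1 := (haa t ht).2
      have := hN Z (A t) 1
      rw [hNZ] at this
      have h2 : 0 ≤ ip (0 - N 1) (N (A t) - N 1) := by rw [this]; exact div_nonneg h1 hn.le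
      rw [ip] at h2
      simp only [Complex.sub_re, Complex.sub_im, zero_sub, Complex.neg_re, Complex.neg_im] at h2
      unfold ip
      nlinarith
    obtain ⟨t1, ht1, t2, ht2, s1, hs1, s2, hs2, e1, e2⟩ := wcore
      (L := fun s => N (L s)) (A1 := fun t => N (A (t * T))) (A2 := fun t => N (A (T + t * (1 - T))))
      (Q := N 1) (hNc.comp hL) (hNc.comp hc1) (hNc.comp hc2) k1 k2 k3 k4 k5
      (by rw [hL0, hN0]) (by rw [hL1])
      (by rw [zero_mul, hA0, hN0]) (by rw [one_mul, hAT, hNZ])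
      (by rw [zero_mul, add_zero, hAT, hNZ])
      (by rw [one_mul, add_sub_cancel, hA1])
      (by
        intro s hs h
        have h1 : N (L s) = N Z := by rw [hNZ]; exact h
        exact hdisj s hs T ⟨hT0, hT1⟩ (by rw [hAT]; exact hNinj _ _ h1))
      (fun s hs t ht => cz s hs _ (mulT hT0 hT1 ht).1)
      (fun s hs t ht => cz s hs _ (mulT hT0 hT1 ht).2)
      (fun s hs t ht => cp s hs _ (mulT hT0 hT1 ht).1)
      (fun s hs t ht => cp s hs _ (mulT hT0 hT1 ht).2)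
      (fun s hs t ht => cq s hs _ (mulT hT0 hT1 ht).1)
      (fun s hs t ht => cq s hs _ (mulT hT0 hT1 ht).2)
      (fun t ht => aP _ (mulT hT0 hT1 ht).1) (fun t ht => aP _ (mulT hT0 hT1 ht).2)
      (fun t ht => aQ _ (mulT hT0 hT1 ht).1) (fun t ht => aQ _ (mulT hT0 hT1 ht).2)
    refine ⟨t1 * T, (mulT' hT0 hT1 ht1).1, T + t2 * (1 - T), (mulT' hT0 hT1 ht2).2, s1, hs1, s2, hs2,
      hNinj _ _ ?_, hNinj _ _ ?_⟩
    · rw [← e1]; simp only [N]; field_simp; ring
    · rw [← e2]; simp only [N]; field_simp; ring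

/-- The theorem for paths: `L` and `A` have the same endpoints; none of the points `A 0`, `A T`,
`A 1` sees a point of `L` and a point of `A` under an obtuse angle. -/
theorem tpath (hL : Continuous L) (hA : Continuous A) (hT0 : 0 < T) (hT1 : T < 1)
    (hP : L 0 = A 0) (hQ : L 1 = A 1) (hPQ : A 0 ≠ A 1)
    (hdisj : ∀ s ∈ Icc (0:ℝ) 1, ∀ t ∈ Ioo (0:ℝ) 1, L s ≠ A t)
    (c : ∀ x, x = 0 ∨ x = 1 ∨ x = T → ∀ s ∈ Icc (0:ℝ) 1, ∀ t ∈ Icc (0:ℝ) 1,
      0 ≤ ip (L s - A x) (A t - A x)) :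
    ∃ t1 ∈ Icc (0:ℝ) T, ∃ t2 ∈ Icc T 1, ∃ s1 ∈ Icc (0:ℝ) 1, ∃ s2 ∈ Icc (0:ℝ) 1,
      (A t1 - Complex.I * (A t2 - A t1) = L s1 ∧ A t2 - Complex.I * (A t2 - A t1) = L s2) ∨
      (A t1 + Complex.I * (A t2 - A t1) = L s1 ∧ A t2 + Complex.I * (A t2 - A t1) = L s2) := by
  have i0 : (0:ℝ) ∈ Icc (0:ℝ) 1 := ⟨le_rfl, zero_le_one⟩
  have i1 : (1:ℝ) ∈ Icc (0:ℝ) 1 := ⟨zero_le_one, le_rfl⟩
  have iT : T ∈ Icc (0:ℝ) 1 := ⟨hT0.le, hT1.le⟩
  obtain ⟨w, hw⟩ : ∃ w, w = A 1 - A 0 := ⟨_, rfl⟩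
  have hw0 : w ≠ 0 := by rw [hw]; exact sub_ne_zero.2 (Ne.symm hPQ)
  have hn : 0 < Complex.normSq w := Complex.normSq_pos.2 hw0
  let N : ℂ → ℂ := fun z => (z - A 0) / w
  have hNc : Continuous N := by fun_prop
  have hN : ∀ z z' x : ℂ, ip (N z - N x) (N z' - N x) = ip (z - x) (z' - x) / Complex.normSq w := by
    intro z z' x
    have h1 : ∀ z, N z - N x = (z - x) / w := by
      intro z; simp only [N]; ring
    rw [h1, h1, ip_div _ _ _ hw0]
  have hN0 : N (A 0) = 0 := by simp [N]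
  have hN1 : N (A 1) = 1 := by simp only [N]; rw [← hw]; exact div_self hw0
  have hNinj : ∀ z w, N z = N w → z = w := by
    intro z z' h
    simp only [N] at h
    rw [div_left_inj' hw0] at h
    exact sub_left_injective h
  have c' : ∀ x, x = 0 ∨ x = 1 ∨ x = T → ∀ s ∈ Icc (0:ℝ) 1, ∀ t ∈ Icc (0:ℝ) 1,
      0 ≤ ip (N (L s) - N (A x)) (N (A t) - N (A x)) := by
    intro x hx s hs t ht
    rw [hN]
    exact div_nonneg (c x hx s hs t ht) hn.le
  have hZne : (N (A T)).im ≠ 0 := by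
    intro him
    have h1 := c' 0 (Or.inl rfl) 1 i1 T iT
    have h2 := c' 1 (Or.inr (Or.inl rfl)) 0 i0 T iT
    have h3 := c' T (Or.inr (Or.inr rfl)) 0 i0 1 i1
    rw [hQ, hN0, hN1] at h1
    rw [hP, hN0, hN1] at h2
    rw [hP, hN0, hN1] at h3
    simp [ip, him] at h1 h2 h3
    have h4 : (N (A T)).re * (1 - (N (A T)).re) = 0 := by nlinarith
    rcases mul_eq_zero.1 h4 with h | h
    · apply hdisj 0 i0 T ⟨hT0, hT1⟩
      rw [hP]
      apply hNinj
      rw [hN0]
      exact Complex.ext h.symm him.symm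
    · apply hdisj 1 i1 T ⟨hT0, hT1⟩
      rw [hQ]
      apply hNinj
      rw [hN1]
      exact Complex.ext (by simp; linarith) (by simpa using him.symm)
  rcases lt_or_gt_of_ne hZne with hneg | hpos
  · -- mirror image
    have hcc : Continuous fun z : ℂ => (starRingEnd ℂ) (N z) := Complex.continuous_conj.comp hNc
    have hci : ∀ a b x : ℂ, ip ((starRingEnd ℂ) a - (starRingEnd ℂ) x)
        ((starRingEnd ℂ) b - (starRingEnd ℂ) x) = ip (a - x) (b - x) := by
      intro a b x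
      simp [ip]; ring
    obtain ⟨t1, ht1, t2, ht2, s1, hs1, s2, hs2, e1, e2⟩ := tcore
      (L := fun s => (starRingEnd ℂ) (N (L s))) (A := fun t => (starRingEnd ℂ) (N (A t)))
      (Z := (starRingEnd ℂ) (N (A T)))
      (hcc.comp hL) (hcc.comp hA) hT0 hT1 (by rw [hP, hN0, map_zero])
      (by rw [hQ, hN1, map_one]) (by rw [hN0, map_zero]) rfl
      (by rw [hN1, map_one]) (by simpa using hneg)
      (by
        intro s hs t ht h
        exact hdisj s hs t ht (hNinj _ _ ((starRingEnd ℂ).injective h)))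
      (by
        intro s hs t ht
        have := c' 0 (Or.inl rfl) s hs t ht
        rw [← hci, hN0, map_zero, sub_zero, sub_zero] at this
        exact this)
      (by
        intro s hs t ht
        have := c' 1 (Or.inr (Or.inl rfl)) s hs t ht
        rw [← hci, hN1, map_one] at this
        exact this)
      (by
        intro s hs t ht
        have := c' T (Or.inr (Or.inr rfl)) s hs t ht
        rw [← hci] at this
        exact this)
    refine ⟨t1, ht1, t2, ht2, s1, hs1, s2, hs2, Or.inr ⟨hNinj _ _ ?_, hNinj _ _ ?_⟩⟩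
    · apply (starRingEnd ℂ).injective
      rw [← e1]
      have h1 : N (A t1 + Complex.I * (A t2 - A t1)) = N (A t1) + Complex.I * (N (A t2) - N (A t1)) := by
        simp only [N]; ring
      rw [h1, map_add, map_mul, map_sub, Complex.conj_I]
      ring
    · apply (starRingEnd ℂ).injective
      rw [← e2]
      have h1 : N (A t2 + Complex.I * (A t2 - A t1)) = N (A t2) + Complex.I * (N (A t2) - N (A t1)) := by
        simp only [N]; ring
      rw [h1, map_add, map_mul, map_sub, Complex.conj_I]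
      ring
  · obtain ⟨t1, ht1, t2, ht2, s1, hs1, s2, hs2, e1, e2⟩ := tcore
      (L := fun s => (N (L s))) (A := fun t => (N (A t)))
      (Z := (N (A T)))
      (hNc.comp hL) (hNc.comp hA) hT0 hT1 (by rw [hP, hN0])
      (by rw [hQ, hN1]) (by rw [hN0]) rfl
      (by rw [hN1]) (by simpa using hpos)
      (by
        intro s hs t ht h
        exact hdisj s hs t ht (hNinj _ _ h))
      (by
        intro s hs t ht
        have := c' 0 (Or.inl rfl) s hs t ht
        rw [hN0, sub_zero, sub_zero] at this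
        exact this)
      (by
        intro s hs t ht
        have := c' 1 (Or.inr (Or.inl rfl)) s hs t ht
        rw [hN1] at this
        exact this)
      (by
        intro s hs t ht
        exact c' T (Or.inr (Or.inr rfl)) s hs t ht)
    refine ⟨t1, ht1, t2, ht2, s1, hs1, s2, hs2, Or.inl ⟨hNinj _ _ ?_, hNinj _ _ ?_⟩⟩
    · rw [← e1]; simp only [N]; ring
    · rw [← e2]; simp only [N]; ring

end

end Pool.Agent.H404R2.Sq
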