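import Mathlib
import Pool.Agent.H404R2.Sq.TCore

set_option autoImplicit false
open Set Topology

namespace Pool.Agent.H404R2.Sq

/-- U-shaped configurations in the frame `P = 0`, `Q = 1`. -/
theorem ucore {L A1 A2 : ℝ → ℂ} (hL : Continuous L) (hA1 : Continuous A1) (hA2 : Continuous A2)
    (hL0 : L 0 = 0) (hL1 : L 1 = 1) (hA10 : A1 0 = 0) (hA21 : A2 1 = 1)
    (c01 : ∀ s ∈ Icc (0:ℝ) 1, ∀ t ∈ Icc (0:ℝ) 1, 0 ≤ ip (L s) (A1 t))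
    (c02 : ∀ s ∈ Icc (0:ℝ) 1, ∀ t ∈ Icc (0:ℝ) 1, 0 ≤ ip (L s) (A2 t))
    (c11 : ∀ s ∈ Icc (0:ℝ) 1, ∀ t ∈ Icc (0:ℝ) 1, 0 ≤ ip (L s - 1) (A1 t - 1))
    (c12 : ∀ s ∈ Icc (0:ℝ) 1, ∀ t ∈ Icc (0:ℝ) 1, 0 ≤ ip (L s - 1) (A2 t - 1))
    {m : ℝ} (hm : ∀ s ∈ Icc (0:ℝ) 1, (L s).im ≤ m)
    (hZ1 : m + 1 ≤ (A1 1).re + (A1 1).im) (hZ2 : m + (A2 0).re ≤ (A2 0).im) :
    ∃ t1 ∈ Icc (0:ℝ) 1, ∃ t2 ∈ Icc (0:ℝ) 1, ∃ s1 ∈ Icc (0:ℝ) 1, ∃ s2 ∈ Icc (0:ℝ) 1,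
      A1 t1 - Complex.I * (A2 t2 - A1 t1) = L s1 ∧ A2 t2 - Complex.I * (A2 t2 - A1 t1) = L s2 := by
  have i0 : (0:ℝ) ∈ Icc (0:ℝ) 1 := ⟨le_rfl, zero_le_one⟩
  have i1 : (1:ℝ) ∈ Icc (0:ℝ) 1 := ⟨zero_le_one, le_rfl⟩
  have hm0 : 0 ≤ m := by
    have := hm 0 i0
    rwa [hL0, Complex.zero_im] at this
  have hre1 : ∀ t ∈ Icc (0:ℝ) 1, 0 ≤ (A1 t).re := by
    intro t ht
    have h1 := c01 1 i1 t ht
    rw [hL1] at h1
    simpa [ip] using h1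
  have hre2 : ∀ t ∈ Icc (0:ℝ) 1, (A2 t).re ≤ 1 := by
    intro t ht
    have h2 := c12 0 i0 t ht
    rw [hL0] at h2
    simpa [ip] using h2
  obtain ⟨z0, hz0⟩ : ∃ z0 : ℂ, z0 = ⟨1, m + 1⟩ := ⟨_, rfl⟩
  have hz0' : z0.im = m + 1 := by rw [hz0]
  have habove : ∀ z : ℂ, m < z.im → z ∉ SD L := by
    intro z hz h
    rcases SD_mem h with ⟨s, hs, h⟩ | ⟨h, -⟩ | ⟨h, -⟩
    · have := hm s hs
      rw [h] at this; linarith
    · linarith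
    · linarith
  have hcl : ∀ z : ℂ, m ≤ z.im → z ∈ closure (Comp (SD L) z0) := by
    intro z hz
    apply closure_of_seg (c := z0)
    · intro τ hτ
      apply habove
      have e : (z + τ * (z0 - z)).im = z.im + τ * (m + 1 - z.im) := by
        simp [hz0']
      rw [e]
      nlinarith [hτ.1, hτ.2]
    · apply mem_connectedComponentIn
      apply habove
      rw [hz0']; linarith
  apply dcore hL hA1 hA2 hL0 hL1 hA10 hA21 c01 c02 c11 c12 (z0 := z0)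
  · intro τ hτ
    apply habove
    have e : (z0 + τ * Complex.I).im = m + 1 + τ := by simp [hz0']
    rw [e]; linarith
  · intro t ht
    apply hcl
    have h1 := hre2 t ht
    have e : (A1 1 - Complex.I * (A2 t - A1 1)).im = (A1 1).im - ((A2 t).re - (A1 1).re) := by simp
    rw [e]; linarith
  · intro t ht
    apply hcl
    have h1 := hre1 t ht
    have e : (A2 0 - Complex.I * (A2 0 - A1 t)).im = (A2 0).im - ((A2 0).re - (A1 t).re) := by simp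
    rw [e]; linarith

end Pool.Agent.H404R2.Sq
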